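import Mathlib

/-!
Hurwitz polynomials, reflection in the imaginary axis, positive real quotients.
-/

open Polynomial Complex

noncomputable section

namespace Pool.Agent.JacT

/-- reflection of a polynomial in the imaginary axis: `sh P` takes the value
`conj (P (-conj z))` at `z` -/
def sh (P : ℂ[X]) : ℂ[X] := (P.map (starRingEnd ℂ)).comp (-X)

lemma sh_eval (P : ℂ[X]) (z : ℂ) :
    (sh P).eval z = (starRingEnd ℂ) (P.eval (-(starRingEnd ℂ z))) := by
  unfold sh
  rw [eval_comp, eval_neg, eval_X]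
  have h : -z = (starRingEnd ℂ) (-(starRingEnd ℂ z)) := by simp
  rw [h, ← Polynomial.eval_map_apply]

lemma sh_add (P Q : ℂ[X]) : sh (P + Q) = sh P + sh Q := by simp [sh]
lemma sh_sub (P Q : ℂ[X]) : sh (P - Q) = sh P - sh Q := by simp [sh]
lemma sh_neg (P : ℂ[X]) : sh (-P) = -sh P := by simp [sh]
lemma sh_mul (P Q : ℂ[X]) : sh (P * Q) = sh P * sh Q := by simp [sh]
lemma sh_C (a : ℂ) : sh (C a) = C ((starRingEnd ℂ) a) := by simp [sh]
lemma sh_X : sh X = -X := by simp [sh]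
lemma sh_one : sh 1 = 1 := by simp [sh]
lemma sh_sh (P : ℂ[X]) : sh (sh P) = P := by
  refine Polynomial.funext fun z => ?_
  rw [sh_eval, sh_eval]; simp

lemma sh_eval_axis (P : ℂ[X]) (y : ℝ) :
    (sh P).eval (y * I) = (starRingEnd ℂ) (P.eval (y * I)) := by
  rw [sh_eval]; congr 2; simp

/-- a nonzero polynomial all of whose roots lie in the open left half plane -/
def Hurwitz (P : ℂ[X]) : Prop := P ≠ 0 ∧ ∀ z : ℂ, P.eval z = 0 → z.re < 0

lemma Hurwitz.eval_ne {P : ℂ[X]} (h : Hurwitz P) {z : ℂ} (hz : 0 ≤ z.re) : P.eval z ≠ 0 :=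
  fun h0 => absurd (h.2 z h0) (not_lt.mpr hz)

lemma norm_sub_lower {r : ℂ} (hr : r.re < 0) :
    ∃ c : ℝ, 0 < c ∧ ∀ z : ℂ, 0 ≤ z.re → c * (1 + ‖z‖) ≤ ‖z - r‖ := by
  have hr' : 0 < -r.re := by linarith
  refine ⟨((1 + ‖r‖) / (-r.re) + 1)⁻¹, by positivity, fun z hz => ?_⟩
  rw [inv_mul_le_iff₀ (by positivity)]
  have h1 : -r.re ≤ ‖z - r‖ := by
    have := Complex.re_le_norm (z - r)
    simp only [Complex.sub_re] at this
    linarith
  have h2 : ‖z‖ ≤ ‖z - r‖ + ‖r‖ := by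
    have := norm_add_le (z - r) r
    simpa using this
  have h3 : 1 + ‖r‖ ≤ (1 + ‖r‖) / (-r.re) * ‖z - r‖ := by
    rw [div_mul_eq_mul_div, le_div_iff₀ hr']
    have : 0 ≤ ‖r‖ := norm_nonneg r
    nlinarith
  nlinarith

lemma multiset_lower (s : Multiset ℂ) (hs : ∀ r ∈ s, r.re < 0) :
    ∃ c : ℝ, 0 < c ∧ ∀ z : ℂ, 0 ≤ z.re →
      c * (1 + ‖z‖) ^ (Multiset.card s) ≤ (s.map (fun r => ‖z - r‖)).prod := by
  induction s using Multiset.induction_on with
  | empty => exact ⟨1, one_pos, fun z _ => by simp⟩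
  | cons a s ih =>
    obtain ⟨c, hc, h⟩ := ih fun r hr => hs r (Multiset.mem_cons_of_mem hr)
    obtain ⟨d, hd, h'⟩ := norm_sub_lower (hs a (Multiset.mem_cons_self a s))
    refine ⟨d * c, by positivity, fun z hz => ?_⟩
    rw [Multiset.card_cons, Multiset.map_cons, Multiset.prod_cons, pow_succ]
    have h1 := h z hz
    have h2 := h' z hz
    have h3 : 0 ≤ d * (1 + ‖z‖) := by positivity
    have h4 : 0 ≤ c * (1 + ‖z‖) ^ (Multiset.card s) := by positivity
    calc d * c * ((1 + ‖z‖) ^ Multiset.card s * (1 + ‖z‖))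
        = (d * (1 + ‖z‖)) * (c * (1 + ‖z‖) ^ (Multiset.card s)) := by ring
      _ ≤ _ := mul_le_mul h2 h1 h4 (norm_nonneg _)

lemma Hurwitz.lower {P : ℂ[X]} (h : Hurwitz P) :
    ∃ c : ℝ, 0 < c ∧ ∀ z : ℂ, 0 ≤ z.re → c * (1 + ‖z‖) ^ P.natDegree ≤ ‖P.eval z‖ := by
  have hs : P.Splits := IsAlgClosed.splits P
  obtain ⟨c, hc, hh⟩ := multiset_lower P.roots fun r hr => h.2 r (by
    simpa using (Polynomial.mem_roots h.1).1 hr)
  have hlc : 0 < ‖P.leadingCoeff‖ := norm_pos_iff.mpr (leadingCoeff_ne_zero.mpr h.1)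
  refine ⟨‖P.leadingCoeff‖ * c, by positivity, fun z hz => ?_⟩
  have hcard : Multiset.card P.roots = P.natDegree := hs.natDegree_eq_card_roots.symm
  have he : P.eval z = P.leadingCoeff * (P.roots.map (fun r => z - r)).prod := by
    conv_lhs => rw [hs.eq_prod_roots]
    rw [eval_mul, eval_C, eval_multiset_prod, Multiset.map_map]
    simp [Function.comp_def]
  rw [he, norm_mul, mul_assoc]
  refine mul_le_mul_of_nonneg_left ?_ hlc.le
  have hn : ‖(P.roots.map (fun r => z - r)).prod‖ = (P.roots.map (fun r => ‖z - r‖)).prod := by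
    induction P.roots using Multiset.induction_on with
    | empty => simp
    | cons a s ih => simp [ih]
  rw [hn, ← hcard]
  exact hh z hz

lemma poly_upper (P : ℂ[X]) {m : ℕ} (hm : P.natDegree ≤ m) :
    ∃ S : ℝ, 0 < S ∧ ∀ z : ℂ, ‖P.eval z‖ ≤ S * (1 + ‖z‖) ^ m := by
  refine ⟨(∑ j ∈ Finset.range (m + 1), ‖P.coeff j‖) + 1, by positivity, fun z => ?_⟩
  rw [eval_eq_sum_range' (Nat.lt_succ_of_le hm)]
  have h1 : ‖∑ j ∈ Finset.range (m + 1), P.coeff j * z ^ j‖
      ≤ ∑ j ∈ Finset.range (m + 1), ‖P.coeff j‖ * (1 + ‖z‖) ^ m := by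
    refine (norm_sum_le _ _).trans (Finset.sum_le_sum fun j hj => ?_)
    rw [norm_mul, norm_pow]
    refine mul_le_mul_of_nonneg_left ?_ (norm_nonneg _)
    have hj' : j ≤ m := Nat.lt_succ_iff.mp (Finset.mem_range.mp hj)
    calc ‖z‖ ^ j ≤ (1 + ‖z‖) ^ j :=
          pow_le_pow_left₀ (norm_nonneg _) (by linarith [norm_nonneg z]) j
      _ ≤ (1 + ‖z‖) ^ m := pow_le_pow_right₀ (by linarith [norm_nonneg z]) hj'
  rw [← Finset.sum_mul] at h1
  have h2 : 0 ≤ (1 + ‖z‖) ^ m := by positivity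
  nlinarith

lemma quot_bounded {A R : ℂ[X]} (hA : Hurwitz A) (hd : R.natDegree ≤ A.natDegree) :
    ∃ M : ℝ, ∀ z : ℂ, 0 ≤ z.re → ‖R.eval z / A.eval z‖ ≤ M := by
  obtain ⟨c, hc, h⟩ := hA.lower
  obtain ⟨S, hS, h'⟩ := poly_upper R hd
  refine ⟨S / c, fun z hz => ?_⟩
  rw [norm_div]
  have h1 := h z hz
  have h2 := h' z
  have h3 : 0 < (1 + ‖z‖) ^ A.natDegree := by positivity
  rw [div_le_div_iff₀ (lt_of_lt_of_le (by positivity) h1) hc]
  calc ‖R.eval z‖ * c ≤ (S * (1 + ‖z‖) ^ A.natDegree) * c :=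
        mul_le_mul_of_nonneg_right h2 hc.le
    _ = S * (c * (1 + ‖z‖) ^ A.natDegree) := by ring
    _ ≤ _ := mul_le_mul_of_nonneg_left h1 hS.le

lemma half_plane_lt {f : ℂ → ℂ} {M : ℝ} (hd : DiffContOnCl ℂ f {z | 0 < z.re})
    (hb : ∀ z : ℂ, 0 < z.re → ‖f z‖ ≤ M) (him : ∀ y : ℝ, ‖f (y * I)‖ < 1)
    (z : ℂ) (hz : 0 ≤ z.re) : ‖f z‖ < 1 := by
  have hle : ∀ w : ℂ, 0 ≤ w.re → ‖f w‖ ≤ 1 := by
    intro w hw
    refine PhragmenLindelof.right_half_plane_of_bounded_on_real hd ?_ ?_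
      (fun y => (him y).le) hw
    · refine ⟨1, by norm_num, 0, ?_⟩
      refine Asymptotics.IsBigO.of_bound M ?_
      rw [Filter.eventually_inf_principal]
      refine Filter.Eventually.of_forall fun w hw => ?_
      simpa using hb w hw
    · refine ⟨M, ?_⟩
      rw [Filter.eventually_map]
      filter_upwards [Filter.eventually_gt_atTop 0] with x hx
      exact hb x (by simpa using hx)
  rcases hz.lt_or_eq with h | h
  · refine lt_of_le_of_ne (hle z hz) fun h1 => ?_
    have hmax : IsMaxOn (norm ∘ f) {w : ℂ | 0 < w.re} z := fun w hw => by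
      simp only [Function.comp, Set.mem_setOf_eq, h1]
      exact hle w (le_of_lt hw)
    have hc : IsPreconnected {w : ℂ | 0 < w.re} := (convex_halfSpace_re_gt 0).isPreconnected
    have ho : IsOpen {w : ℂ | 0 < w.re} := isOpen_lt continuous_const Complex.continuous_re
    have hE := Complex.eqOn_closure_of_isPreconnected_of_isMaxOn_norm hc ho hd h hmax
    have h0 : (0:ℂ) ∈ closure {w : ℂ | 0 < w.re} := by
      rw [Complex.closure_setOf_lt_re]; simp
    have h3 := hE h0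
    have h2 := him 0
    simp only [Complex.ofReal_zero, zero_mul] at h2
    rw [h3] at h2
    simp only [Function.const] at h2
    linarith
  · have h4 : z = z.im * I := Complex.ext (by simp [h.symm]) (by simp)
    rw [h4]; exact him _

lemma closure_rhp : closure {w : ℂ | 0 < w.re} = {w : ℂ | 0 ≤ w.re} :=
  Complex.closure_setOf_lt_re 0

lemma quot_diffContOnCl {A R : ℂ[X]} (hA : Hurwitz A) :
    DiffContOnCl ℂ (fun z => R.eval z / A.eval z) {z : ℂ | 0 < z.re} := by
  have h1 : Differentiable ℂ (fun z => R.eval z) := R.differentiable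
  have h2 : Differentiable ℂ (fun z => A.eval z) := A.differentiable
  refine ⟨fun z hz => ?_, ?_⟩
  · exact ((h1 z).div (h2 z) (hA.eval_ne (le_of_lt hz))).differentiableWithinAt
  · rw [closure_rhp]
    intro z hz
    exact ((h1 z).continuousAt.div (h2 z).continuousAt (hA.eval_ne hz)).continuousWithinAt

/-- if `|p| < |T|` on the imaginary axis, `T` Hurwitz, then `|p| < |T|` on the closed right half
plane -/
lemma lt_of_axis {T p : ℂ[X]} (hT : Hurwitz T) (hd : p.natDegree ≤ T.natDegree)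
    (h : ∀ y : ℝ, ‖p.eval (y * I)‖ < ‖T.eval (y * I)‖) {z : ℂ} (hz : 0 ≤ z.re) :
    ‖p.eval z‖ < ‖T.eval z‖ := by
  obtain ⟨M, hM⟩ := quot_bounded hT hd
  have h1 := half_plane_lt (quot_diffContOnCl (R := p) hT) (fun w hw => hM w (le_of_lt hw))
    (fun y => by
      have hne : T.eval (y * I) ≠ 0 := hT.eval_ne (by simp)
      rw [norm_div, div_lt_one (norm_pos_iff.mpr hne)]
      exact h y) z hz
  have hne : T.eval z ≠ 0 := hT.eval_ne hz
  rwa [norm_div, div_lt_one (norm_pos_iff.mpr hne)] at h1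

/-- positive real functions -/
lemma pos_real {A R : ℂ[X]} (hA : Hurwitz A) (hd : R.natDegree ≤ A.natDegree)
    (h : ∀ y : ℝ, 0 < (R.eval (y * I) / A.eval (y * I)).re) {z : ℂ} (hz : 0 ≤ z.re) :
    0 < (R.eval z / A.eval z).re := by
  obtain ⟨M, hM⟩ := quot_bounded hA hd
  have hd' : DiffContOnCl ℂ (fun z => Complex.exp (-(R.eval z / A.eval z))) {z : ℂ | 0 < z.re} := by
    have h1 := (quot_diffContOnCl (R := R) hA).neg
    exact Complex.differentiable_exp.comp_diffContOnCl h1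
  have h1 := half_plane_lt (M := Real.exp M) hd' (fun w hw => by
      rw [Complex.norm_exp]
      refine Real.exp_le_exp.mpr ?_
      have := hM w (le_of_lt hw)
      have h3 := Complex.abs_re_le_norm (R.eval w / A.eval w)
      have h4 := neg_le_abs (R.eval w / A.eval w).re
      simp only [Complex.neg_re]
      linarith)
    (fun y => by
      rw [Complex.norm_exp, Real.exp_lt_one_iff]
      simpa using h y) z hz
  rw [Complex.norm_exp, Real.exp_lt_one_iff] at h1
  simpa using h1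

end Pool.Agent.JacT
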