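import Pool.Agent.JacT.Basic

/-!
Degree and leading coefficient of a positive real quotient.
-/

open Polynomial Complex Filter Topology

noncomputable section

namespace Pool.Agent.JacT

lemma tendsto_ray (P : ℂ[X]) (u : ℂ) :
    Tendsto (fun t : ℝ => P.eval (t * u) / (t : ℂ) ^ P.natDegree) atTop
      (𝓝 (P.leadingCoeff * u ^ P.natDegree)) := by
  set m := P.natDegree with hm
  have hG : Continuous (fun w : ℂ =>
      ∑ j ∈ Finset.range (m + 1), P.coeff j * u ^ j * w ^ (m - j)) := by fun_prop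
  have h0 : (∑ j ∈ Finset.range (m + 1), P.coeff j * u ^ j * (0 : ℂ) ^ (m - j))
      = P.leadingCoeff * u ^ m := by
    rw [Finset.sum_range_succ, Finset.sum_eq_zero, zero_add]
    · rw [Nat.sub_self, pow_zero, mul_one, hm]; rfl
    · intro j hj
      have : m - j ≠ 0 := by
        have := Finset.mem_range.mp hj; omega
      simp [this]
  have hinv : Tendsto (fun t : ℝ => ((t : ℂ))⁻¹) atTop (𝓝 0) := by
    have h1 : Tendsto (fun t : ℝ => t⁻¹) atTop (𝓝 0) := tendsto_inv_atTop_zero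
    have h2 := (Complex.continuous_ofReal.tendsto 0).comp h1
    simpa [Function.comp_def] using h2
  have h3 := (hG.tendsto 0).comp hinv
  rw [h0] at h3
  refine h3.congr' ?_
  filter_upwards [eventually_gt_atTop 0] with t ht
  have ht' : (t : ℂ) ≠ 0 := by exact_mod_cast ht.ne'
  simp only [Function.comp]
  rw [eval_eq_sum_range, Finset.sum_div, ← hm]
  refine Finset.sum_congr rfl fun j hj => ?_
  have hj' : j ≤ m := Nat.lt_succ_iff.mp (Finset.mem_range.mp hj)
  have h4 : (t : ℂ) ^ m = (t : ℂ) ^ j * (t : ℂ) ^ (m - j) := by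
    rw [← pow_add]; congr 1; omega
  rw [h4, mul_pow, inv_pow]
  field_simp

lemma exists_bad_direction {c : ℂ} (hc : c ≠ 0) {k : ℕ} (hk : 2 ≤ k) :
    ∃ u : ℂ, u ≠ 0 ∧ 0 ≤ u.re ∧ (c / u ^ k).re < 0 := by
  have hk0 : (0 : ℝ) < k := by exact_mod_cast (by omega : 0 < k)
  have hk2 : (2 : ℝ) ≤ k := by exact_mod_cast hk
  have hpi := Real.pi_pos
  have key : ∀ θ : ℝ, |θ| ≤ Real.pi / 2 →
      Complex.exp (k * θ * I) = -Complex.exp (c.arg * I) →
      ∃ u : ℂ, u ≠ 0 ∧ 0 ≤ u.re ∧ (c / u ^ k).re < 0 := by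
    intro θ hθ he
    refine ⟨Complex.exp (θ * I), Complex.exp_ne_zero _, ?_, ?_⟩
    · rw [Complex.exp_ofReal_mul_I_re]
      exact Real.cos_nonneg_of_neg_pi_div_two_le_of_le (abs_le.mp hθ).1 (abs_le.mp hθ).2
    · rw [← Complex.exp_nat_mul, ← mul_assoc, he]
      have h1 : c = ‖c‖ * Complex.exp (c.arg * I) := (Complex.norm_mul_exp_arg_mul_I c).symm
      have h2 : Complex.exp (c.arg * I) ≠ 0 := Complex.exp_ne_zero _
      have h3 : c / -Complex.exp (c.arg * I) = ((-‖c‖ : ℝ) : ℂ) := by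
        conv_lhs => rw [h1]
        simp only [Complex.arg_real_mul, Complex.ofReal_neg]
        have h4 : ((‖c‖ : ℂ) * Complex.exp (c.arg * I)).arg = c.arg := by
          rw [Complex.norm_mul_exp_arg_mul_I]
        rw [h4]
        field_simp
      rw [h3, Complex.ofReal_re]
      have : 0 < ‖c‖ := norm_pos_iff.mpr hc
      linarith
  have harg1 := Complex.neg_pi_lt_arg c
  have harg2 := Complex.arg_le_pi c
  rcases le_or_gt 0 c.arg with h | h
  · refine key ((c.arg - Real.pi) / k) ?_ ?_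
    · rw [abs_div, abs_of_pos hk0, div_le_iff₀ hk0, abs_of_nonpos (by linarith)]
      nlinarith
    · have hk0' : (k : ℂ) ≠ 0 := by exact_mod_cast (by omega : k ≠ 0)
      push_cast
      rw [mul_div_cancel₀ _ hk0', sub_mul, Complex.exp_sub, Complex.exp_pi_mul_I]
      rw [div_neg, div_one]
  · refine key ((c.arg + Real.pi) / k) ?_ ?_
    · rw [abs_div, abs_of_pos hk0, div_le_iff₀ hk0, abs_of_nonneg (by linarith)]
      nlinarith
    · have hk0' : (k : ℂ) ≠ 0 := by exact_mod_cast (by omega : k ≠ 0)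
      push_cast
      rw [mul_div_cancel₀ _ hk0', add_mul, Complex.exp_add, Complex.exp_pi_mul_I]
      simp

lemma pos_real_ray {A R : ℂ[X]} (hA : A ≠ 0) (hdeg : R.natDegree < A.natDegree)
    (h : ∀ z : ℂ, 0 ≤ z.re → 0 < (R.eval z / A.eval z).re) {u : ℂ} (hu : u ≠ 0)
    (hu' : 0 ≤ u.re) :
    0 ≤ ((R.leadingCoeff / A.leadingCoeff) / u ^ (A.natDegree - R.natDegree)).re := by
  have h1 := tendsto_ray R u
  have h2 := tendsto_ray A u
  have hne : A.leadingCoeff * u ^ A.natDegree ≠ 0 :=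
    mul_ne_zero (leadingCoeff_ne_zero.mpr hA) (pow_ne_zero _ hu)
  have h3 := h1.div h2 hne
  have h4 : R.leadingCoeff * u ^ R.natDegree / (A.leadingCoeff * u ^ A.natDegree)
      = (R.leadingCoeff / A.leadingCoeff) / u ^ (A.natDegree - R.natDegree) := by
    have h5 : u ^ A.natDegree = u ^ R.natDegree * u ^ (A.natDegree - R.natDegree) := by
      rw [← pow_add]; congr 1; omega
    have h6 : A.leadingCoeff ≠ 0 := leadingCoeff_ne_zero.mpr hA
    rw [h5]
    field_simp
  rw [← h4]
  have h7 := (Complex.continuous_re.tendsto _).comp h3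
  refine ge_of_tendsto h7 ?_
  filter_upwards [eventually_gt_atTop 0] with t ht
  simp only [Function.comp, Pi.div_apply]
  have ht' : (t : ℂ) ≠ 0 := by exact_mod_cast ht.ne'
  have h8 : R.eval (t * u) / (t : ℂ) ^ R.natDegree / (A.eval (t * u) / (t : ℂ) ^ A.natDegree)
      = ((t ^ (A.natDegree - R.natDegree) : ℝ) : ℂ) * (R.eval (t * u) / A.eval (t * u)) := by
    have h5 : (t : ℂ) ^ A.natDegree = (t : ℂ) ^ R.natDegree * (t : ℂ) ^ (A.natDegree - R.natDegree) := by
      rw [← pow_add]; congr 1; omega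
    rw [h5]
    push_cast
    field_simp
  rw [h8, Complex.re_ofReal_mul]
  have h9 := h (t * u) (by simp only [Complex.mul_re, Complex.ofReal_re, Complex.ofReal_im]; nlinarith)
  positivity

/-- degree and leading coefficient -/
lemma pos_real_lead {A R : ℂ[X]} (hA : A ≠ 0) (hR : R ≠ 0) (hdeg : R.natDegree < A.natDegree)
    (h : ∀ z : ℂ, 0 ≤ z.re → 0 < (R.eval z / A.eval z).re) :
    A.natDegree = R.natDegree + 1 ∧
      ∃ w : ℝ, 0 < w ∧ R.leadingCoeff / A.leadingCoeff = (w : ℂ) := by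
  set c := R.leadingCoeff / A.leadingCoeff with hc
  have hc0 : c ≠ 0 := div_ne_zero (leadingCoeff_ne_zero.mpr hR) (leadingCoeff_ne_zero.mpr hA)
  have hdeg1 : A.natDegree = R.natDegree + 1 := by
    by_contra hne
    have hk : 2 ≤ A.natDegree - R.natDegree := by omega
    obtain ⟨u, hu, hu', hneg⟩ := exists_bad_direction hc0 hk
    have := pos_real_ray hA hdeg h hu hu'
    linarith
  refine ⟨hdeg1, ?_⟩
  have hk : A.natDegree - R.natDegree = 1 := by omega
  have e1 := pos_real_ray hA hdeg h (u := 1) one_ne_zero (by simp)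
  have e2 := pos_real_ray hA hdeg h (u := I) I_ne_zero (by simp)
  have e3 := pos_real_ray hA hdeg h (u := -I) (neg_ne_zero.mpr I_ne_zero) (by simp)
  rw [hk, pow_one, ← hc] at e1 e2 e3
  simp only [div_one, Complex.div_I, div_neg, neg_neg, Complex.neg_re, Complex.mul_re,
    Complex.I_re, Complex.I_im, mul_zero, mul_one, zero_sub] at e1 e2 e3
  have him : c.im = 0 := by linarith
  refine ⟨c.re, ?_, Complex.ext (by simp) (by simp [him])⟩
  refine lt_of_le_of_ne e1 fun h0 => hc0 (Complex.ext (by simp [← h0]) (by simp [him]))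

end Pool.Agent.JacT
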