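import Pool.Agent.JacT.Spec
import Pool.Agent.JacT.Lead

/-!
Continuants with one loaded end, their positive real quotients, and the inverse problem.
-/

open Polynomial Complex

noncomputable section

namespace Pool.Agent.JacT

/-- the continuant `E b n v c`: the characteristic polynomial of the tridiagonal matrix of size `n`
with diagonal `(I v₀, …, I v_{n-2}, I v_{n-1} - b)` and with `c_k` equal to minus the product of
the two off-diagonal entries at position `k` -/
def E (b : ℝ) : ℕ → (ℕ → ℝ) → (ℕ → ℝ) → ℂ[X]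
  | 0, _, _ => 1
  | 1, v, _ => X - C (I * (v 0 : ℂ)) + C (b : ℂ)
  | (n + 2), v, c => (X - C (I * (v 0 : ℂ))) * E b (n + 1) (fun k => v (k + 1)) (fun k => c (k + 1))
      + C (c 0 : ℂ) * E b n (fun k => v (k + 2)) (fun k => c (k + 2))

lemma E_zero (b : ℝ) (v c : ℕ → ℝ) : E b 0 v c = 1 := by rw [E]

lemma E_one (b : ℝ) (v c : ℕ → ℝ) : E b 1 v c = X - C (I * (v 0 : ℂ)) + C (b : ℂ) := by rw [E]

lemma E_two (b : ℝ) (n : ℕ) (v c : ℕ → ℝ) : E b (n + 2) v c =
    (X - C (I * (v 0 : ℂ))) * E b (n + 1) (fun k => v (k + 1)) (fun k => c (k + 1))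
      + C (c 0 : ℂ) * E b n (fun k => v (k + 2)) (fun k => c (k + 2)) := by rw [E]

lemma sh_lin (v : ℝ) : sh (X - C (I * (v : ℂ))) = -(X - C (I * (v : ℂ))) := by
  rw [sh_X_sub_C]; simp

lemma E_identity (b : ℝ) : ∀ (n : ℕ) (v c : ℕ → ℝ),
    E b n (fun k => v (k + 1)) (fun k => c (k + 1)) * sh (E b (n + 1) v c)
      + E b (n + 1) v c * sh (E b n (fun k => v (k + 1)) (fun k => c (k + 1)))
      = C ((2 * (b * ∏ k ∈ Finset.range n, c k) : ℝ) : ℂ) := by
  intro n
  induction n with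
  | zero =>
    intro v c
    rw [E_zero, E_one, sh_add, sh_lin, sh_C, Complex.conj_ofReal, sh_one, Finset.range_zero,
      Finset.prod_empty]
    have h2 : C ((2 * (b * 1) : ℝ) : ℂ) = C (b : ℂ) + C (b : ℂ) := by
      rw [← C_add]; congr 1; push_cast; ring
    rw [h2]; ring
  | succ n ih =>
    intro v c
    have h := ih (fun k => v (k + 1)) (fun k => c (k + 1))
    rw [E_two b n v c, sh_add, sh_mul, sh_mul, sh_lin, sh_C, Complex.conj_ofReal,
      Finset.prod_range_succ']
    have h2 : C ((2 * (b * ((∏ k ∈ Finset.range n, c (k + 1)) * c 0)) : ℝ) : ℂ)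
        = C (c 0 : ℂ) * C ((2 * (b * ∏ k ∈ Finset.range n, c (k + 1)) : ℝ) : ℂ) := by
      rw [← C_mul, ← Complex.ofReal_mul]; congr 2; ring
    rw [h2, ← h]
    ring

lemma E_monic (b : ℝ) : ∀ (n : ℕ) (v c : ℕ → ℝ), (E b n v c).Monic ∧ (E b n v c).natDegree = n := by
  intro n
  induction n using Nat.twoStepInduction with
  | zero => intro v c; rw [E_zero]; exact ⟨monic_one, natDegree_one⟩
  | one =>
    intro v c
    have h : E b 1 v c = X - C (I * (v 0 : ℂ) - (b : ℂ)) := by rw [E_one, C_sub]; ring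
    rw [h]
    exact ⟨monic_X_sub_C _, natDegree_X_sub_C _⟩
  | more n ih1 ih2 =>
    intro v c
    obtain ⟨h1, h1'⟩ := ih1 (fun k => v (k + 2)) (fun k => c (k + 2))
    obtain ⟨h2, h2'⟩ := ih2 (fun k => v (k + 1)) (fun k => c (k + 1))
    have h3 : ((X - C (I * (v 0 : ℂ))) * E b (n + 1) (fun k => v (k + 1)) (fun k => c (k + 1))).Monic :=
      (monic_X_sub_C _).mul h2
    have h4 : ((X - C (I * (v 0 : ℂ))) *
        E b (n + 1) (fun k => v (k + 1)) (fun k => c (k + 1))).natDegree = n + 2 := by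
      rw [(monic_X_sub_C _).natDegree_mul h2, h2', natDegree_X_sub_C]; ring
    have h5 : (C (c 0 : ℂ) * E b n (fun k => v (k + 2)) (fun k => c (k + 2))).degree
        < ((X - C (I * (v 0 : ℂ))) *
          E b (n + 1) (fun k => v (k + 1)) (fun k => c (k + 1))).degree := by
      refine degree_lt_degree ?_
      rw [h4]
      refine lt_of_le_of_lt (natDegree_C_mul_le _ _) ?_
      rw [h1']; omega
    rw [E_two]
    refine ⟨h3.add_of_left h5, ?_⟩
    rw [natDegree_add_eq_left_of_degree_lt h5, h4]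

lemma re_inv_pos {w : ℂ} (h : 0 < w.re) : 0 < (w⁻¹).re := by
  have hw : w ≠ 0 := by rintro rfl; simp at h
  rw [Complex.inv_re]
  exact div_pos h (Complex.normSq_pos.mpr hw)

lemma E_pos {b : ℝ} (hb : 0 < b) : ∀ (n : ℕ) (v c : ℕ → ℝ), (∀ k < n, 0 < c k) →
    ∀ z : ℂ, 0 ≤ z.re → (E b n (fun k => v (k + 1)) (fun k => c (k + 1))).eval z ≠ 0 ∧
      0 < ((E b (n + 1) v c).eval z /
        (E b n (fun k => v (k + 1)) (fun k => c (k + 1))).eval z).re := by
  intro n
  induction n with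
  | zero =>
    intro v c _ z hz
    rw [E_zero, E_one]
    refine ⟨by simp, ?_⟩
    simp
    linarith
  | succ n ih =>
    intro v c hc z hz
    obtain ⟨h1, h2⟩ := ih (fun k => v (k + 1)) (fun k => c (k + 1))
      (fun k hk => hc (k + 1) (by omega)) z hz
    have hne : (E b (n + 1) (fun k => v (k + 1)) (fun k => c (k + 1))).eval z ≠ 0 := by
      intro h0; rw [h0] at h2; simp at h2
    refine ⟨hne, ?_⟩
    rw [E_two, eval_add, eval_mul, eval_mul, eval_C, add_div, mul_div_assoc, div_self hne, mul_one,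
      mul_div_assoc]
    have h3 := re_inv_pos h2
    rw [inv_div] at h3
    have h4 := hc 0 (by omega)
    rw [Complex.add_re, Complex.re_ofReal_mul]
    have h5 : ((X - C (I * (v 0 : ℂ))).eval z).re = z.re := by simp
    rw [h5]
    have h6 := mul_pos h4 h3
    linarith

lemma E_hurwitz {b : ℝ} (hb : 0 < b) (n : ℕ) (v c : ℕ → ℝ) (hc : ∀ k < n - 1, 0 < c k) :
    Hurwitz (E b n v c) := by
  refine ⟨(E_monic b n v c).1.ne_zero, fun z hz => ?_⟩
  by_contra hcon
  push Not at hcon
  rcases n with _ | n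
  · rw [E_zero] at hz; simp at hz
  · have h := (E_pos hb n v c hc z hcon).2
    rw [hz] at h; simp at h

/-- the polynomial attached to the doubly loaded chain -/
def F (a b : ℝ) (n : ℕ) (v c : ℕ → ℝ) : ℂ[X] :=
  E b (n + 1) v c - C (a : ℂ) * E b n (fun k => v (k + 1)) (fun k => c (k + 1))

/-- the companion Hurwitz polynomial -/
def G (a b : ℝ) (n : ℕ) (v c : ℕ → ℝ) : ℂ[X] :=
  E b (n + 1) v c + C (a : ℂ) * E b n (fun k => v (k + 1)) (fun k => c (k + 1))

lemma low_deg (a b : ℝ) (n : ℕ) (v c : ℕ → ℝ) :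
    (C (a : ℂ) * E b n (fun k => v (k + 1)) (fun k => c (k + 1))).degree
      < (E b (n + 1) v c).degree := by
  refine degree_lt_degree (lt_of_le_of_lt (natDegree_C_mul_le _ _) ?_)
  rw [(E_monic b n _ _).2, (E_monic b (n + 1) _ _).2]; omega

lemma F_monic (a b : ℝ) (n : ℕ) (v c : ℕ → ℝ) :
    (F a b n v c).Monic ∧ (F a b n v c).natDegree = n + 1 := by
  have h := low_deg a b n v c
  refine ⟨(E_monic b (n + 1) v c).1.sub_of_left h, ?_⟩
  unfold F
  rw [natDegree_sub_eq_left_of_natDegree_lt, (E_monic b (n + 1) v c).2]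
  refine lt_of_le_of_lt (natDegree_C_mul_le _ _) ?_
  rw [(E_monic b n _ _).2, (E_monic b (n + 1) _ _).2]; omega

lemma G_monic (a b : ℝ) (n : ℕ) (v c : ℕ → ℝ) :
    (G a b n v c).Monic ∧ (G a b n v c).natDegree = n + 1 := by
  have h := low_deg a b n v c
  refine ⟨(E_monic b (n + 1) v c).1.add_of_left h, ?_⟩
  unfold G
  rw [natDegree_add_eq_left_of_degree_lt h, (E_monic b (n + 1) v c).2]

lemma G_hurwitz {a b : ℝ} (ha : 0 < a) (hb : 0 < b) (n : ℕ) (v c : ℕ → ℝ)
    (hc : ∀ k < n, 0 < c k) : Hurwitz (G a b n v c) := by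
  refine ⟨(G_monic a b n v c).1.ne_zero, fun z hz => ?_⟩
  by_contra hcon
  push Not at hcon
  obtain ⟨h1, h2⟩ := E_pos hb n v c hc z hcon
  have h3 : (E b (n + 1) v c).eval z / (E b n (fun k => v (k + 1)) (fun k => c (k + 1))).eval z
      = -(a : ℂ) := by
    rw [div_eq_iff h1]
    unfold G at hz
    rw [eval_add, eval_mul, eval_C] at hz
    linear_combination hz
  rw [h3] at h2
  simp at h2
  linarith

lemma G_form (a b : ℝ) (n : ℕ) (v c : ℕ → ℝ) :
    G a b n v c * sh (G a b n v c) = F a b n v c * sh (F a b n v c)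
      + C ((4 * (a * b * ∏ k ∈ Finset.range n, c k) : ℝ) : ℂ) := by
  have h := E_identity b n v c
  unfold G F
  rw [sh_add, sh_sub, sh_mul, sh_C, Complex.conj_ofReal]
  have h2 : C ((4 * (a * b * ∏ k ∈ Finset.range n, c k) : ℝ) : ℂ)
      = 2 * C (a : ℂ) * C ((2 * (b * ∏ k ∈ Finset.range n, c k) : ℝ) : ℂ) := by
    have h3 : (2 : ℂ[X]) = C (2 : ℂ) := rfl
    rw [h3, ← C_mul, ← C_mul]; congr 1; push_cast; ring
  rw [h2, ← h]
  ring

/-- the Euclid steps determine all the parameters -/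
lemma chain_unique : ∀ (n : ℕ) (b b' : ℝ) (v v' c c' : ℕ → ℝ), (∀ k < n, 0 < c k) →
    (∀ k < n, 0 < c' k) →
    E b (n + 1) v c = E b' (n + 1) v' c' →
    E b n (fun k => v (k + 1)) (fun k => c (k + 1))
      = E b' n (fun k => v' (k + 1)) (fun k => c' (k + 1)) →
    b = b' ∧ (∀ k < n + 1, v k = v' k) ∧ ∀ k < n, c k = c' k := by
  intro n
  induction n with
  | zero =>
    intro b b' v v' c c' _ _ h _
    rw [E_one, E_one] at h
    have h1 := congrArg (fun P => P.coeff 0) h
    simp only [coeff_add, coeff_sub, coeff_X_zero, coeff_C_zero] at h1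
    have h2 := congrArg Complex.re h1
    have h3 := congrArg Complex.im h1
    simp at h2 h3
    refine ⟨h2, fun k hk => ?_, fun k hk => absurd hk (by omega)⟩
    obtain rfl : k = 0 := by omega
    exact h3
  | succ n ih =>
    intro b b' v v' c c' hc hc' h1 h2
    rw [E_two, E_two, ← h2] at h1
    set B := E b (n + 1) (fun k => v (k + 1)) (fun k => c (k + 1)) with hB
    set D := E b n (fun k => v (k + 2)) (fun k => c (k + 2)) with hD
    set D' := E b' n (fun k => v' (k + 2)) (fun k => c' (k + 2)) with hD'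
    have hBm := E_monic b (n + 1) (fun k => v (k + 1)) (fun k => c (k + 1))
    rw [← hB] at hBm
    have hDm := E_monic b n (fun k => v (k + 2)) (fun k => c (k + 2))
    rw [← hD] at hDm
    have hDm' := E_monic b' n (fun k => v' (k + 2)) (fun k => c' (k + 2))
    rw [← hD'] at hDm'
    have h3 : C (I * (v' 0 : ℂ) - I * (v 0 : ℂ)) * B
        = C (c' 0 : ℂ) * D' - C (c 0 : ℂ) * D := by
      rw [C_sub]; linear_combination h1
    have h4 : I * (v' 0 : ℂ) - I * (v 0 : ℂ) = 0 := by
      by_contra hne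
      have h5 : (C (I * (v' 0 : ℂ) - I * (v 0 : ℂ)) * B).natDegree = n + 1 := by
        rw [natDegree_C_mul hne, hBm.2]
      have h6 : (C (c' 0 : ℂ) * D' - C (c 0 : ℂ) * D).natDegree ≤ n := by
        refine (natDegree_sub_le _ _).trans (max_le ?_ ?_)
        · exact (natDegree_C_mul_le _ _).trans hDm'.2.le
        · exact (natDegree_C_mul_le _ _).trans hDm.2.le
      rw [← h3, h5] at h6
      omega
    have hv : v 0 = v' 0 := by
      have h5 := congrArg Complex.im h4
      simp at h5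
      linarith
    rw [h4, C_0, zero_mul] at h3
    have h7 : C (c 0 : ℂ) * D = C (c' 0 : ℂ) * D' := by linear_combination h3
    have h8 : (c 0 : ℂ) = (c' 0 : ℂ) := by
      have h9 := congrArg leadingCoeff h7
      rwa [leadingCoeff_mul, leadingCoeff_mul, leadingCoeff_C, leadingCoeff_C,
        hDm.1.leadingCoeff, hDm'.1.leadingCoeff, mul_one, mul_one] at h9
    have hc0 : c 0 = c' 0 := Complex.ofReal_injective h8
    have hcne : (C (c' 0 : ℂ) : ℂ[X]) ≠ 0 := by
      rw [Ne, C_eq_zero]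
      exact_mod_cast (hc' 0 (by omega)).ne'
    rw [h8] at h7
    have hDD : D = D' := mul_left_cancel₀ hcne h7
    obtain ⟨e1, e2, e3⟩ := ih b b' (fun k => v (k + 1)) (fun k => v' (k + 1))
      (fun k => c (k + 1)) (fun k => c' (k + 1)) (fun k hk => hc (k + 1) (by omega))
      (fun k hk => hc' (k + 1) (by omega)) (by rw [← hB]; exact h2) hDD
    refine ⟨e1, fun k hk => ?_, fun k hk => ?_⟩
    · rcases k with _ | k
      · exact hv
      · exact e2 k (by omega)
    · rcases k with _ | k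
      · exact hc0
      · exact e3 k (by omega)

theorem F_unique {n : ℕ} {a b a' b' : ℝ} {v v' c c' : ℕ → ℝ} (ha : 0 < a) (hb : 0 < b)
    (hc : ∀ k < n, 0 < c k) (ha' : 0 < a') (hb' : 0 < b') (hc' : ∀ k < n, 0 < c' k)
    (h : F a b n v c = F a' b' n v' c')
    (hk : a * b * ∏ k ∈ Finset.range n, c k = a' * b' * ∏ k ∈ Finset.range n, c' k) :
    a = a' ∧ b = b' ∧ (∀ k < n + 1, v k = v' k) ∧ ∀ k < n, c k = c' k := by
  have hG : G a b n v c = G a' b' n v' c' := by
    refine spec_unique (G_monic a b n v c).1 (G_monic a' b' n v' c').1 (G_hurwitz ha hb n v c hc)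
      (G_hurwitz ha' hb' n v' c' hc') ?_
    rw [G_form, G_form, h, hk]
  have hE : E b (n + 1) v c = E b' (n + 1) v' c' := by
    have h1 : (2 : ℂ[X]) * E b (n + 1) v c = 2 * E b' (n + 1) v' c' := by
      have h2 : (2 : ℂ[X]) * E b (n + 1) v c = F a b n v c + G a b n v c := by
        unfold F G; ring
      have h3 : (2 : ℂ[X]) * E b' (n + 1) v' c' = F a' b' n v' c' + G a' b' n v' c' := by
        unfold F G; ring
      rw [h2, h3, h, hG]
    exact mul_left_cancel₀ two_ne_zero h1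
  have hN : C (a : ℂ) * E b n (fun k => v (k + 1)) (fun k => c (k + 1))
      = C (a' : ℂ) * E b' n (fun k => v' (k + 1)) (fun k => c' (k + 1)) := by
    unfold G at hG
    rw [hE] at hG
    exact add_left_cancel hG
  have haa : (a : ℂ) = (a' : ℂ) := by
    have h9 := congrArg leadingCoeff hN
    rwa [leadingCoeff_mul, leadingCoeff_mul, leadingCoeff_C, leadingCoeff_C,
      (E_monic b n _ _).1.leadingCoeff, (E_monic b' n _ _).1.leadingCoeff, mul_one, mul_one] at h9
  have hane : (C (a' : ℂ) : ℂ[X]) ≠ 0 := by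
    rw [Ne, C_eq_zero]
    exact_mod_cast ha'.ne'
  rw [haa] at hN
  have hEE := mul_left_cancel₀ hane hN
  exact ⟨Complex.ofReal_injective haa, chain_unique n b b' v v' c c' hc hc' hE hEE⟩

end Pool.Agent.JacT
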