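import Pool.Agent.JacT.Final

/-!
The range of the first diagonal entry.
-/

open Polynomial Complex

noncomputable section

namespace Pool.Agent.JacT

/-- comparison of the second coefficients -/
lemma cmp {T P : ℂ[X]} {n : ℕ} (hT : Hurwitz T) (hTm : T.Monic) (hPm : P.Monic)
    (hTd : T.natDegree = n + 1) (hPd : P.natDegree = n + 1)
    (h : ∀ y : ℝ, ‖P.eval (y * I)‖ < ‖T.eval (y * I)‖) :
    ∃ w : ℝ, 0 < w ∧ T.coeff n - P.coeff n = (w : ℂ) := by
  have hlt : ∀ z : ℂ, 0 ≤ z.re → ‖P.eval z‖ < ‖T.eval z‖ := fun z hz =>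
    lt_of_axis hT (by omega) h hz
  have hpos : ∀ z : ℂ, 0 ≤ z.re → 0 < ((T - P).eval z / T.eval z).re := by
    intro z hz
    have hne : T.eval z ≠ 0 := hT.eval_ne hz
    have h1 : ‖P.eval z / T.eval z‖ < 1 := by
      rw [norm_div, div_lt_one (norm_pos_iff.mpr hne)]; exact hlt z hz
    have h2 := Complex.re_le_norm (P.eval z / T.eval z)
    rw [eval_sub, sub_div, div_self hne, Complex.sub_re, Complex.one_re]
    linarith
  have hR : T - P ≠ 0 := by
    intro h0
    have := hpos 0 (by simp)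
    rw [h0] at this
    simp at this
  have hdeg : (T - P).natDegree < T.natDegree := by
    refine natDegree_lt_natDegree hR (degree_sub_lt_left ?_ hTm.ne_zero ?_)
    · rw [degree_eq_natDegree hTm.ne_zero, degree_eq_natDegree hPm.ne_zero, hTd, hPd]
    · rw [hTm.leadingCoeff, hPm.leadingCoeff]
  obtain ⟨h3, w, hw, h4⟩ := pos_real_lead hT.1 hR hdeg hpos
  rw [hTm.leadingCoeff, div_one, leadingCoeff] at h4
  have h5 : (T - P).natDegree = n := by omega
  rw [h5, coeff_sub] at h4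
  exact ⟨w, hw, h4⟩

lemma norm_lt_of_form {T P : ℂ[X]} {Q : ℂ[X]} {k : ℝ} (hT : T * sh T = Q * sh Q + C (k : ℂ))
    {y : ℝ} {x : ℝ} (hP : ‖P.eval (y * I)‖ ^ 2 = x) (h : x < ‖Q.eval (y * I)‖ ^ 2 + k) :
    ‖P.eval (y * I)‖ < ‖T.eval (y * I)‖ := by
  have h1 := congrArg (fun P => (P.eval (y * I)).re) hT
  rw [form_axis, mul_sh_axis, Complex.ofReal_re, Complex.ofReal_re, Complex.normSq_eq_norm_sq,
    Complex.normSq_eq_norm_sq] at h1
  refine lt_of_pow_lt_pow_left₀ 2 (norm_nonneg _) ?_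
  rw [hP, h1]; exact h

lemma E_coeff_one (b : ℝ) : ∀ (n : ℕ) (v c : ℕ → ℝ),
    (E b (n + 1) v c).coeff n = (b : ℂ) - I * ((∑ k ∈ Finset.range (n + 1), v k : ℝ) : ℂ) := by
  intro n
  induction n with
  | zero =>
    intro v c
    rw [E_one, coeff_add, coeff_sub, coeff_C_zero, coeff_C_zero, coeff_X_zero]
    simp
    ring
  | succ n ih =>
    intro v c
    rw [E_two, coeff_add, sub_mul, coeff_sub, coeff_X_mul, coeff_C_mul, coeff_C_mul,
      ih (fun k => v (k + 1)) (fun k => c (k + 1)), E_coeff_top, E_coeff_high b n _ _ (by omega),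
      Finset.sum_range_succ' _ (n + 1)]
    push_cast
    ring

lemma E_coeff_two (b : ℝ) : ∀ (n : ℕ) (v c : ℕ → ℝ),
    ((E b (n + 2) v c).coeff n).re = ∑ k ∈ Finset.range (n + 1), c k
      - ((∑ k ∈ Finset.range (n + 2), v k) ^ 2 - ∑ k ∈ Finset.range (n + 2), v k ^ 2) / 2 := by
  intro n
  induction n with
  | zero =>
    intro v c
    rw [E_two, coeff_add, coeff_zero_eq_eval_zero, eval_mul, E_one, E_zero, mul_one, coeff_C_zero]
    simp [Finset.sum_range_succ]
    ring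
  | succ n ih =>
    intro v c
    rw [E_two, coeff_add, sub_mul, coeff_sub, coeff_X_mul, coeff_C_mul, coeff_C_mul,
      E_coeff_one b (n + 1) (fun k => v (k + 1)) (fun k => c (k + 1)), E_coeff_top,
      Complex.add_re, Complex.sub_re, ih (fun k => v (k + 1)) (fun k => c (k + 1))]
    have s1 : ∑ k ∈ Finset.range (n + 1 + 1), c k = ∑ k ∈ Finset.range (n + 1), c (k + 1) + c 0 :=
      Finset.sum_range_succ' _ _
    have s2 : ∑ k ∈ Finset.range (n + 1 + 2), v k = ∑ k ∈ Finset.range (n + 2), v (k + 1) + v 0 :=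
      Finset.sum_range_succ' _ _
    have s3 : ∑ k ∈ Finset.range (n + 1 + 2), v k ^ 2
        = ∑ k ∈ Finset.range (n + 2), v (k + 1) ^ 2 + v 0 ^ 2 := Finset.sum_range_succ' _ _
    have s4 : n + 1 + 1 = n + 2 := rfl
    have s5 : (I * (v 0 : ℂ) * ((b : ℂ) - I * ((∑ k ∈ Finset.range (n + 2), v (k + 1) : ℝ) : ℂ))).re
        = v 0 * ∑ k ∈ Finset.range (n + 2), v (k + 1) := by
      simp only [Complex.mul_re, Complex.mul_im, Complex.sub_re, Complex.sub_im, Complex.I_re,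
        Complex.I_im, Complex.ofReal_re, Complex.ofReal_im]
      ring
    rw [s1, s2, s3, s4, s5, mul_one, Complex.ofReal_re]
    ring

lemma F_coeff_one (a b : ℝ) (n : ℕ) (v c : ℕ → ℝ) :
    (F a b n v c).coeff n
      = (b : ℂ) - (a : ℂ) - I * ((∑ k ∈ Finset.range (n + 1), v k : ℝ) : ℂ) := by
  rw [F, coeff_sub, coeff_C_mul, E_coeff_one, E_coeff_top]; ring

lemma G_coeff_one (a b : ℝ) (n : ℕ) (v c : ℕ → ℝ) :
    (G a b n v c).coeff n = (F a b n v c).coeff n + 2 * (a : ℂ) := by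
  rw [G, F, coeff_sub, coeff_add, coeff_C_mul, E_coeff_top]; ring

lemma F_coeff_two (a b : ℝ) (n : ℕ) (v c : ℕ → ℝ) :
    ((F a b (n + 1) v c).coeff n).re = ∑ k ∈ Finset.range (n + 1), c k
      - ((∑ k ∈ Finset.range (n + 2), v k) ^ 2 - ∑ k ∈ Finset.range (n + 2), v k ^ 2) / 2
      - a * b := by
  rw [F, coeff_sub, coeff_C_mul, E_coeff_one, Complex.sub_re, E_coeff_two]
  simp

/-- bound of the product in terms of the corner entries and of two coefficients -/
lemma prod_bound {a b : ℝ} {n : ℕ} {v c : ℕ → ℝ} (ha : 0 < a) (hb : 0 < b)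
    (hc : ∀ k < n + 1, 0 < c k) {P : ℂ[X]} (hP : F a b (n + 1) v c = P) :
    0 ≤ (P.coeff n).re + (P.coeff (n + 1)).im ^ 2 / 2 + a * b ∧
    a * b * ∏ k ∈ Finset.range (n + 1), c k
      ≤ a * b * ((P.coeff n).re + (P.coeff (n + 1)).im ^ 2 / 2 + a * b) ^ (n + 1) := by
  have h1 := F_coeff_two a b n v c
  have h2 := congrArg Complex.im (F_coeff_one a b (n + 1) v c)
  rw [hP] at h1 h2
  have h3 : (P.coeff (n + 1)).im = -∑ k ∈ Finset.range (n + 1 + 1), v k := by
    rw [h2]; simp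
  have h4 : 0 ≤ ∑ k ∈ Finset.range (n + 2), v k ^ 2 := Finset.sum_nonneg fun k _ => sq_nonneg _
  have h5 : ∑ k ∈ Finset.range (n + 1), c k
      ≤ (P.coeff n).re + (P.coeff (n + 1)).im ^ 2 / 2 + a * b := by
    rw [h1, h3]; nlinarith
  refine ⟨(Finset.sum_nonneg fun k hk => (hc k (Finset.mem_range.mp hk)).le).trans h5,
    mul_le_mul_of_nonneg_left ?_ (by positivity)⟩
  have h6 : ∀ k ∈ Finset.range (n + 1), c k ≤ ∑ k ∈ Finset.range (n + 1), c k := fun k hk =>
    Finset.single_le_sum (fun j hj => (hc j (Finset.mem_range.mp hj)).le) hk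
  calc ∏ k ∈ Finset.range (n + 1), c k
      ≤ ∏ _k ∈ Finset.range (n + 1),
          ((P.coeff n).re + (P.coeff (n + 1)).im ^ 2 / 2 + a * b) :=
        Finset.prod_le_prod (fun k hk => (hc k (Finset.mem_range.mp hk)).le)
          (fun k hk => (h6 k hk).trans h5)
    _ = _ := by rw [Finset.prod_const, Finset.card_range]

end Pool.Agent.JacT
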