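import Pool.Agent.JacT.Final

/-!
The final form of the first theorem.
-/

open Polynomial Complex
open scoped ContDiff

noncomputable section

namespace Pool.Agent.JacT

lemma an_comp (m : ℕ) {y : Coe m} (hy : 0 < y.2) {f : Par m → ℝ} (hf : ContDiff ℝ ω f) :
    AnalyticAt ℝ (fun y => f (Psi m y)) y :=
  (hf.contDiffAt.analyticAt).comp (Psi_analytic m hy)

/-- if the polynomial is real and the imaginary parts are unique, they vanish -/
lemma real_of {m : ℕ} {A : Matrix (Fin (m + 2)) (Fin (m + 2)) ℝ} {v : Fin (m + 2) → ℝ} {P : ℂ[X]}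
    (hT : InT A) (hP : (cx A v).charpoly = P)
    (huniq : ∀ w : Fin (m + 2) → ℝ, (cx A w).charpoly = P → w = v) {p : ℝ[X]}
    (hp : P = p.map (algebraMap ℝ ℂ)) : v = 0 ∧ A.charpoly = p := by
  have h5 : (cx A (fun i => -v i)).charpoly = P := by
    have h6 : (cx A (fun i => -v i)).charpoly = ((cx A v).charpoly).map (starRingEnd ℂ) := by
      rw [charpoly_cx hT, charpoly_cx hT, F_conj]
      refine F_congr _ _ (m + 1) _ _ _ _ (fun k hk => ?_) (fun k hk => rfl)
      rw [ex_lt _ hk, ex_lt _ hk]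
    rw [h6, hP, hp, Polynomial.map_map]
    congr 1
    ext x
    simp
  have h8 := huniq _ h5
  have hv : v = fun _ => 0 := by
    funext i
    have h9 : -v i = v i := congrFun h8 i
    linarith
  refine ⟨hv, ?_⟩
  have hinj : Function.Injective (Polynomial.map (algebraMap ℝ ℂ)) :=
    Polynomial.map_injective _ (algebraMap ℝ ℂ).injective
  refine hinj ?_
  rw [← cx_zero, ← hv, hP, hp]

theorem section_main (m : ℕ) :
    ∃ (A : (Fin (m + 2) → ℂ) × ℝ → Matrix (Fin (m + 2)) (Fin (m + 2)) ℝ)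
      (v : (Fin (m + 2) → ℂ) × ℝ → Fin (m + 2) → ℝ),
      (∀ i j, AnalyticOnNhd ℝ (fun y => A y i j) {y | 0 < y.2}) ∧
      (∀ i, AnalyticOnNhd ℝ (fun y => v y i) {y | 0 < y.2}) ∧
      ∀ (q : Fin (m + 2) → ℂ) (κ : ℝ), 0 < κ →
        InT (A (q, κ)) ∧
        (∀ (B : Matrix (Fin (m + 2)) (Fin (m + 2)) ℝ) (w : Fin (m + 2) → ℝ),
          (InT B ∧ weight B = κ ∧
            (cx B w).charpoly = X ^ (m + 2) + ∑ i : Fin (m + 2), C (q i) * X ^ (i : ℕ)) ↔
          (w = v (q, κ) ∧ ∃ d : Fin (m + 2) → ℝ, (∀ i, 0 < d i) ∧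
            ∀ i j, B i j = d i * A (q, κ) i j / d j)) ∧
        (∀ r : Fin (m + 2) → ℝ, q = (fun i => (r i : ℂ)) → v (q, κ) = 0 ∧
          (A (q, κ)).charpoly = X ^ (m + 2) + ∑ i : Fin (m + 2), C (r i) * X ^ (i : ℕ)) := by
  refine ⟨fun y => nf m (Psi m y).1 (Psi m y).2.1 (ex (Psi m y).2.2.1),
    fun y => (Psi m y).2.2.2, ?_, ?_, ?_⟩
  · intro i j y hy
    have ha : ContDiff ℝ ω (fun x : Par m => x.1) := contDiff_fst
    have hb : ContDiff ℝ ω (fun x : Par m => x.2.1) := contDiff_snd.fst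
    have hc : ContDiff ℝ ω (fun x : Par m => x.2.2.1) := contDiff_snd.snd.fst
    have hf : ContDiff ℝ ω (fun x : Par m => nf m x.1 x.2.1 (ex x.2.2.1) i j) := by
      simp only [nf]
      split_ifs
      · exact ha.sub hb
      · exact ha.sub contDiff_const
      · exact contDiff_const.sub hb
      · exact contDiff_const
      · exact contDiff_const
      · exact (ex_smooth hc _).neg
      · exact contDiff_const
    exact an_comp m hy hf
  · intro i y hy
    have hv : ContDiff ℝ ω (fun x : Par m => x.2.2.2) := contDiff_snd.snd.snd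
    exact an_comp m hy ((contDiff_apply ℝ ℝ i).comp hv)
  · intro q κ hκ
    obtain ⟨⟨ha, hb, hc⟩, hPhi⟩ := Psi_spec m (y := (q, κ)) hκ
    set x := Psi m (q, κ) with hx
    have h := core m (v := ex x.2.2.2) (c := ex x.2.2.1) ha hb
      (fun k hk => by rw [ex_lt _ hk]; exact hc _)
    rw [Phi_F, Phi_prod, hPhi] at h
    have hv : (fun i : Fin (m + 2) => ex x.2.2.2 i) = x.2.2.2 := by
      funext i; rw [ex_val]
    rw [hv] at h
    obtain ⟨h1, h2, h3, h4⟩ := h
    refine ⟨h1, h4, fun r hq => ?_⟩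
    have hreal : poly q = (X ^ (m + 2) + ∑ i : Fin (m + 2), C (r i) * X ^ (i : ℕ) : ℝ[X]).map
        (algebraMap ℝ ℂ) := by
      rw [poly, hq, Polynomial.map_add, Polynomial.map_pow, Polynomial.map_X, Polynomial.map_sum]
      congr 1
      refine Finset.sum_congr rfl fun i _ => ?_
      rw [Polynomial.map_mul, Polynomial.map_C, Polynomial.map_pow, Polynomial.map_X]
      rfl
    exact real_of h1 h3 (fun w hw => ((h4 _ w).mp ⟨h1, h2, hw⟩).1) hreal

end Pool.Agent.JacT
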