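import Pool.Agent.JacT.Exact
import Pool.Agent.JacT.Section

/-!
The final form of the second theorem.
-/

open Polynomial Complex

noncomputable section

namespace Pool.Agent.JacT

theorem corner_main (m : ℕ) (P : ℂ[X]) (hP : P.Monic) (hd : P.natDegree = m + 2) (a : ℝ) :
    ((∃ (A : Matrix (Fin (m + 2)) (Fin (m + 2)) ℝ) (v : Fin (m + 2) → ℝ),
        InT A ∧ A 0 0 = a ∧ (cx A v).charpoly = P) ↔
      (P.roots.map fun r => max r.re 0).sum < a) ∧
    ∀ (A : Matrix (Fin (m + 2)) (Fin (m + 2)) ℝ) (v : Fin (m + 2) → ℝ),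
      InT A → A 0 0 = a → (cx A v).charpoly = P →
      (∀ (B : Matrix (Fin (m + 2)) (Fin (m + 2)) ℝ) (w : Fin (m + 2) → ℝ),
        (InT B ∧ B 0 0 = a ∧ (cx B w).charpoly = P) ↔
          (w = v ∧ ∃ d : Fin (m + 2) → ℝ, (∀ i, 0 < d i) ∧
            ∀ i j, B i j = d i * A i j / d j)) ∧
      (∀ p : ℝ[X], P = p.map (algebraMap ℝ ℂ) → v = 0 ∧ A.charpoly = p) := by
  constructor
  · constructor
    · rintro ⟨A, v, hA, haa, hch⟩
      have h := corner_lower hA.first (neg_pos.mpr hA.last) (cc_pos hA)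
        (P := P) (v := ex v) (by rw [← charpoly_cx hA, hch])
      rw [haa] at h
      exact h
    · intro h
      have hPq : P = poly (fun i : Fin (m + 2) => P.coeff i) := eq_poly hP hd (fun _ => rfl)
      obtain ⟨b, v, c, ha, hb, hc, hF⟩ := corner_exists m (fun i : Fin (m + 2) => P.coeff i)
        (a := a) (by rw [← hPq]; exact h)
      obtain ⟨g1, g2, g3, g4⟩ := core m (v := v) ha hb hc
      exact ⟨nf m a b c, fun i : Fin (m + 2) => v i, g1, nf_first m a b c, by rw [g3, hF, ← hPq]⟩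
  · intro A v hA haa hch
    have huniq : ∀ (B : Matrix (Fin (m + 2)) (Fin (m + 2)) ℝ) (w : Fin (m + 2) → ℝ),
        InT B → B 0 0 = a → (cx B w).charpoly = P →
          w = v ∧ ∃ d : Fin (m + 2) → ℝ, (∀ i, 0 < d i) ∧ ∀ i j, B i j = d i * A i j / d j := by
      intro B w hB hbb hchB
      have h1 : F (A 0 0) (-A (Fin.last (m + 1)) (Fin.last (m + 1))) (m + 1) (ex v) (ex (cc A))
          = F (B 0 0) (-B (Fin.last (m + 1)) (Fin.last (m + 1))) (m + 1) (ex w) (ex (cc B)) := by
        rw [← charpoly_cx hA, ← charpoly_cx hB, hch, hchB]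
      obtain ⟨g2, g3, g4⟩ := corner_unique hA.first (neg_pos.mpr hA.last) (cc_pos hA) hB.first
        (neg_pos.mpr hB.last) (cc_pos hB) h1 (by rw [haa, hbb])
      refine ⟨?_, exists_scaling hA hB (by rw [haa, hbb]) (neg_injective g2) ?_⟩
      · funext i
        have h2 := g3 i i.2
        rw [ex_val, ex_val] at h2
        exact h2.symm
      · intro i
        have h2 := g4 i i.2
        rwa [ex_val, ex_val] at h2
    refine ⟨fun B w => ⟨fun h => huniq B w h.1 h.2.1 h.2.2, fun h => ?_⟩, fun p hp => ?_⟩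
    · obtain ⟨rfl, d, hd', hB⟩ := h
      obtain ⟨g1, g2, g3, g4⟩ := scaling_data hA hd' hB
      have g5 : cc A = cc B := funext g4
      exact ⟨g1, by rw [← g2, haa], by rw [← hch, charpoly_cx g1, charpoly_cx hA, g2, g3, g5]⟩
    · exact real_of hA hch (fun w hw => (huniq A w hA haa hw).1) hp

end Pool.Agent.JacT
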