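import Mathlib

/-!
The matrices of the problem, the product of their entries, and their complex companions.
-/

open Matrix

noncomputable section

namespace Pool.Agent.JacT

/-- `InT A`: the real tridiagonal matrix `A` of size `m + 2` lies in the set of the problem:
superdiagonal entries positive, subdiagonal entries negative, diagonal `(+, 0, …, 0, -)` and all
other entries zero -/
structure InT {m : ℕ} (A : Matrix (Fin (m + 2)) (Fin (m + 2)) ℝ) : Prop where
  band : ∀ i j : Fin (m + 2), (i : ℕ) + 2 ≤ j ∨ (j : ℕ) + 2 ≤ i → A i j = 0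
  sup : ∀ i : Fin (m + 1), 0 < A i.castSucc i.succ
  sub : ∀ i : Fin (m + 1), A i.succ i.castSucc < 0
  first : 0 < A 0 0
  last : A (Fin.last (m + 1)) (Fin.last (m + 1)) < 0
  mid : ∀ i : Fin (m + 2), i ≠ 0 → i ≠ Fin.last (m + 1) → A i i = 0

/-- the absolute value of the product of the two corner entries of the diagonal and of all the
off-diagonal entries -/
def weight {m : ℕ} (A : Matrix (Fin (m + 2)) (Fin (m + 2)) ℝ) : ℝ :=
  A 0 0 * (-A (Fin.last (m + 1)) (Fin.last (m + 1))) *
    ∏ i : Fin (m + 1), (A i.castSucc i.succ * (-A i.succ i.castSucc))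

/-- the complex matrix `A + i diag (v)` -/
def cx {m : ℕ} (A : Matrix (Fin (m + 2)) (Fin (m + 2)) ℝ) (v : Fin (m + 2) → ℝ) :
    Matrix (Fin (m + 2)) (Fin (m + 2)) ℂ :=
  fun i j => (A i j : ℂ) + if i = j then Complex.I * (v i : ℂ) else 0

end Pool.Agent.JacT
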