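import Pool.Agent.JacT.Exist

/-!
Determinants of tridiagonal matrices.
-/

open Polynomial Complex Matrix

noncomputable section

namespace Pool.Agent.JacT

lemma det_tridiag {R : Type*} [CommRing R] {n : ℕ} (M : Matrix (Fin (n + 2)) (Fin (n + 2)) R)
    (h0 : ∀ j : Fin (n + 2), 2 ≤ (j : ℕ) → M 0 j = 0)
    (h1 : ∀ i : Fin (n + 2), 2 ≤ (i : ℕ) → M i 0 = 0) :
    M.det = M 0 0 * (M.submatrix Fin.succ Fin.succ).det
      - M 0 1 * M 1 0 *
        (M.submatrix (fun i : Fin n => i.succ.succ) (fun i : Fin n => i.succ.succ)).det := by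
  rw [Matrix.det_succ_row_zero, Fin.sum_univ_succ, Fin.sum_univ_succ, Finset.sum_eq_zero, add_zero]
  · have h2 : (M.submatrix Fin.succ (Fin.succAbove (Fin.succ (0 : Fin (n + 1))))).det
        = M 1 0 * (M.submatrix (fun i : Fin n => i.succ.succ)
          (fun i : Fin n => i.succ.succ)).det := by
      rw [Matrix.det_succ_column_zero, Fin.sum_univ_succ, Finset.sum_eq_zero, add_zero]
      · simp only [Matrix.submatrix_apply, Fin.val_zero, pow_zero, one_mul, Matrix.submatrix_submatrix]
        congr 1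
      · intro i _
        have h3 : (M.submatrix Fin.succ (Fin.succAbove (Fin.succ (0 : Fin (n + 1))))) i.succ 0 = 0 := by
          rw [Matrix.submatrix_apply]
          have h4 : Fin.succAbove (Fin.succ (0 : Fin (n + 1))) 0 = 0 := rfl
          rw [h4]
          exact h1 _ (by simp)
        rw [h3]; ring
    rw [h2]
    simp only [Fin.val_zero, pow_zero, one_mul, Fin.succ_zero_eq_one]
    have h5 : Fin.succAbove (0 : Fin (n + 2)) = Fin.succ := by ext i; simp
    rw [h5]
    simp
    ring
  · intro j _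
    rw [h0 _ (by simp)]; ring

/-- tridiagonal matrices -/
def tri {R : Type*} [Zero R] (m : ℕ) (d u l : ℕ → R) : Matrix (Fin m) (Fin m) R :=
  fun i j => if (i : ℕ) = j then d i else if (j : ℕ) = i + 1 then u i
    else if (i : ℕ) = j + 1 then l j else 0

lemma tri_sub {R : Type*} [Zero R] (m : ℕ) (d u l : ℕ → R) :
    (tri (m + 1) d u l).submatrix Fin.succ Fin.succ
      = tri m (fun k => d (k + 1)) (fun k => u (k + 1)) (fun k => l (k + 1)) := by
  ext i j
  simp only [Matrix.submatrix_apply, tri, Fin.val_succ, add_left_inj]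

lemma tri_det_zero {R : Type*} [CommRing R] (d u l : ℕ → R) : (tri 0 d u l).det = 1 := by
  simp

lemma tri_det_one {R : Type*} [CommRing R] (d u l : ℕ → R) : (tri 1 d u l).det = d 0 := by
  simp [tri]

lemma tri_det {R : Type*} [CommRing R] (m : ℕ) (d u l : ℕ → R) :
    (tri (m + 2) d u l).det
      = d 0 * (tri (m + 1) (fun k => d (k + 1)) (fun k => u (k + 1)) (fun k => l (k + 1))).det
        - u 0 * l 0 *
          (tri m (fun k => d (k + 2)) (fun k => u (k + 2)) (fun k => l (k + 2))).det := by
  rw [det_tridiag]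
  · rw [tri_sub]
    have h : (tri (m + 2) d u l).submatrix (fun i : Fin m => i.succ.succ)
        (fun i : Fin m => i.succ.succ)
        = tri m (fun k => d (k + 2)) (fun k => u (k + 2)) (fun k => l (k + 2)) := by
      ext i j
      simp only [Matrix.submatrix_apply, tri, Fin.val_succ, add_left_inj]
    rw [h]
    simp [tri]
  · intro j hj
    simp only [tri, Fin.val_zero]
    rw [if_neg (by omega), if_neg (by omega), if_neg (by omega)]
  · intro i hi
    simp only [tri, Fin.val_zero]
    rw [if_neg (by omega), if_neg (by omega), if_neg (by omega)]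

/-- the diagonal of the characteristic matrix, loaded at the far end -/
def dg (b : ℝ) (n : ℕ) (v : ℕ → ℝ) : ℕ → ℂ[X] :=
  fun k => X - C (I * (v k : ℂ)) + (if k + 1 = n then C (b : ℂ) else 0)

lemma dg_succ (b : ℝ) (n : ℕ) (v : ℕ → ℝ) :
    (fun k => dg b (n + 1) v (k + 1)) = dg b n (fun k => v (k + 1)) := by
  funext k
  simp only [dg, add_left_inj]

lemma tri_E (b : ℝ) : ∀ (n : ℕ) (v c : ℕ → ℝ) (u l : ℕ → ℂ[X]),
    (∀ k, k + 1 < n → u k * l k = -C (c k : ℂ)) → (tri n (dg b n v) u l).det = E b n v c := by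
  intro n
  induction n using Nat.twoStepInduction with
  | zero => intro v c u l _; rw [tri_det_zero, E_zero]
  | one =>
    intro v c u l _
    rw [tri_det_one, E_one, dg, if_pos rfl]
  | more n ih1 ih2 =>
    intro v c u l h
    rw [tri_det, E_two, dg_succ]
    have h2 : (fun k => dg b (n + 2) v (k + 2)) = dg b n (fun k => v (k + 2)) := by
      funext k
      have h3 : (k + 2 + 1 = n + 2) = (k + 1 = n) := propext (by omega)
      simp only [dg, h3]
    rw [h2, ih1 (fun k => v (k + 2)) (fun k => c (k + 2)) _ _ (fun k hk => h (k + 2) (by omega)),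
      ih2 (fun k => v (k + 1)) (fun k => c (k + 1)) _ _ (fun k hk => h (k + 1) (by omega)),
      h 0 (by omega), dg, if_neg (by omega)]
    ring

/-- the diagonal of the characteristic matrix, loaded at both ends -/
def dg2 (a b : ℝ) (n : ℕ) (v : ℕ → ℝ) : ℕ → ℂ[X] :=
  fun k => dg b n v k - (if k = 0 then C (a : ℂ) else 0)

lemma tri_F (a b : ℝ) (n : ℕ) (v c : ℕ → ℝ) (u l : ℕ → ℂ[X])
    (h : ∀ k, k < n → u k * l k = -C (c k : ℂ)) :
    (tri (n + 1) (dg2 a b (n + 1) v) u l).det = F a b n v c := by
  rcases n with _ | n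
  · rw [tri_det_one, F, E_zero, E_one, dg2, if_pos rfl, dg, if_pos rfl]; ring
  · have h1 : (fun k => dg2 a b (n + 1 + 1) v (k + 1)) = dg b (n + 1) (fun k => v (k + 1)) := by
      funext k; simp only [dg2, dg, add_left_inj]; simp
    have h2 : (fun k => dg2 a b (n + 1 + 1) v (k + 2)) = dg b n (fun k => v (k + 2)) := by
      funext k; simp only [dg2, dg, add_left_inj]; simp
    rw [tri_det, h1, h2, F, E_two,
      tri_E b n (fun k => v (k + 2)) (fun k => c (k + 2)) _ _ (fun k hk => h (k + 2) (by omega)),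
      tri_E b (n + 1) (fun k => v (k + 1)) (fun k => c (k + 1)) _ _
        (fun k hk => h (k + 1) (by omega)),
      h 0 (by omega), dg2, if_pos rfl, dg, if_neg (by omega)]
    ring

end Pool.Agent.JacT
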