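import Pool.Agent.JacT.Exist

/-!
Derivatives along lines in the space of parameters, and their injectivity.
-/

open Polynomial Complex

noncomputable section

namespace Pool.Agent.JacT

/-- the polynomial valued curve `P` has derivative `P'` at `0`, pointwise -/
def HD (P : ℝ → ℂ[X]) (P' : ℂ[X]) : Prop :=
  ∀ z : ℂ, HasDerivAt (fun t : ℝ => (P t).eval z) (P'.eval z) 0

lemma HD.add {P Q : ℝ → ℂ[X]} {P' Q' : ℂ[X]} (h : HD P P') (h' : HD Q Q') :
    HD (fun t => P t + Q t) (P' + Q') := fun z => by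
  simp only [eval_add]
  exact (h z).add (h' z)

lemma HD.sub {P Q : ℝ → ℂ[X]} {P' Q' : ℂ[X]} (h : HD P P') (h' : HD Q Q') :
    HD (fun t => P t - Q t) (P' - Q') := fun z => by
  simp only [eval_sub]
  exact (h z).sub (h' z)

lemma HD.mul {P Q : ℝ → ℂ[X]} {P' Q' : ℂ[X]} (h : HD P P') (h' : HD Q Q') :
    HD (fun t => P t * Q t) (P' * Q 0 + P 0 * Q') := fun z => by
  simp only [eval_add, eval_mul]
  exact (h z).mul (h' z)

lemma HD.sh {P : ℝ → ℂ[X]} {P' : ℂ[X]} (h : HD P P') : HD (fun t => JacT.sh (P t)) (JacT.sh P') :=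
  fun z => by
  simp only [sh_eval]
  exact (Complex.conjCLE.hasFDerivAt).comp_hasDerivAt (0 : ℝ) (h _)

lemma hd_const (P : ℂ[X]) : HD (fun _ => P) 0 := fun z => by
  simp only [eval_zero]
  exact hasDerivAt_const _ _

lemma hd_line (x y : ℝ) : HD (fun t => C ((x + t * y : ℝ) : ℂ)) (C (y : ℂ)) := fun z => by
  simp only [eval_C]
  have h : HasDerivAt (fun t : ℝ => x + t * y) y 0 := by
    have := ((hasDerivAt_id (0 : ℝ)).mul_const y).const_add x
    simpa using this
  exact h.ofReal_comp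

lemma HD.congr {P Q : ℝ → ℂ[X]} {P' Q' : ℂ[X]} (h : HD P P') (h1 : ∀ t, Q t = P t) (h2 : Q' = P') :
    HD Q Q' := by
  have : Q = P := funext h1
  rw [this, h2]; exact h

lemma HD.unique {P : ℝ → ℂ[X]} {P' P'' : ℂ[X]} (h : HD P P') (h' : HD P P'') : P' = P'' :=
  Polynomial.funext fun z => (h z).unique (h' z)

/-- the derivative of `E` along a line -/
def dE (b β : ℝ) : ℕ → (ℕ → ℝ) → (ℕ → ℝ) → (ℕ → ℝ) → (ℕ → ℝ) → ℂ[X]
  | 0, _, _, _, _ => 0
  | 1, _, _, w, _ => C (β : ℂ) - C I * C (w 0 : ℂ)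
  | (n + 2), v, c, w, e =>
      -(C I * C (w 0 : ℂ)) * E b (n + 1) (fun k => v (k + 1)) (fun k => c (k + 1))
      + (X - C I * C (v 0 : ℂ)) * dE b β (n + 1) (fun k => v (k + 1)) (fun k => c (k + 1))
          (fun k => w (k + 1)) (fun k => e (k + 1))
      + (C (e 0 : ℂ) * E b n (fun k => v (k + 2)) (fun k => c (k + 2))
      + C (c 0 : ℂ) * dE b β n (fun k => v (k + 2)) (fun k => c (k + 2))
          (fun k => w (k + 2)) (fun k => e (k + 2)))

lemma hd_lin (x y : ℝ) : HD (fun t => X - C (I * ((x + t * y : ℝ) : ℂ))) (-(C I * C (y : ℂ))) := by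
  refine (((hd_const X).sub ((hd_const (C I)).mul (hd_line x y)))).congr (fun t => ?_) ?_
  · rw [C_mul]
  · simp

theorem hd_E (b β : ℝ) : ∀ (n : ℕ) (v c w e : ℕ → ℝ),
    HD (fun t => E (b + t * β) n (fun k => v k + t * w k) (fun k => c k + t * e k))
      (dE b β n v c w e) := by
  intro n
  induction n using Nat.twoStepInduction with
  | zero =>
    intro v c w e
    refine (hd_const 1).congr (fun t => by rw [E_zero]) (by rw [dE])
  | one =>
    intro v c w e
    refine ((hd_lin (v 0) (w 0)).add (hd_line b β)).congr (fun t => by rw [E_one]) ?_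
    rw [dE]; ring
  | more n ih1 ih2 =>
    intro v c w e
    have h1 := ih1 (fun k => v (k + 2)) (fun k => c (k + 2)) (fun k => w (k + 2))
      (fun k => e (k + 2))
    have h2 := ih2 (fun k => v (k + 1)) (fun k => c (k + 1)) (fun k => w (k + 1))
      (fun k => e (k + 1))
    refine (((hd_lin (v 0) (w 0)).mul h2).add ((hd_line (c 0) (e 0)).mul h1)).congr
      (fun t => by rw [E_two]) ?_
    rw [dE]
    simp

lemma dE_zero (b β : ℝ) (v c w e : ℕ → ℝ) : dE b β 0 v c w e = 0 := by rw [dE]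

lemma dE_one (b β : ℝ) (v c w e : ℕ → ℝ) :
    dE b β 1 v c w e = C (β : ℂ) - C I * C (w 0 : ℂ) := by rw [dE]

lemma dE_two (b β : ℝ) (n : ℕ) (v c w e : ℕ → ℝ) : dE b β (n + 2) v c w e =
      -(C I * C (w 0 : ℂ)) * E b (n + 1) (fun k => v (k + 1)) (fun k => c (k + 1))
      + (X - C I * C (v 0 : ℂ)) * dE b β (n + 1) (fun k => v (k + 1)) (fun k => c (k + 1))
          (fun k => w (k + 1)) (fun k => e (k + 1))
      + (C (e 0 : ℂ) * E b n (fun k => v (k + 2)) (fun k => c (k + 2))
      + C (c 0 : ℂ) * dE b β n (fun k => v (k + 2)) (fun k => c (k + 2))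
          (fun k => w (k + 2)) (fun k => e (k + 2))) := by rw [dE]

lemma E_coeff_high (b : ℝ) (n : ℕ) (v c : ℕ → ℝ) {m : ℕ} (h : n < m) : (E b n v c).coeff m = 0 :=
  coeff_eq_zero_of_natDegree_lt (by rw [(E_monic b n v c).2]; exact h)

lemma E_coeff_top (b : ℝ) (n : ℕ) (v c : ℕ → ℝ) : (E b n v c).coeff n = 1 := by
  have h := (E_monic b n v c).1
  rw [Monic, leadingCoeff, (E_monic b n v c).2] at h
  exact h

lemma dE_coeff (b β : ℝ) : ∀ (n : ℕ) (v c w e : ℕ → ℝ) (m : ℕ), n ≤ m →
    (dE b β n v c w e).coeff m = 0 := by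
  intro n
  induction n using Nat.twoStepInduction with
  | zero => intro v c w e m _; rw [dE_zero, coeff_zero]
  | one =>
    intro v c w e m hm
    rw [dE_one, ← C_mul, ← C_sub, coeff_C_of_ne_zero (by omega)]
  | more n ih1 ih2 =>
    intro v c w e m hm
    obtain ⟨m, rfl⟩ : ∃ k, m = k + 1 := ⟨m - 1, by omega⟩
    rw [dE_two, ← C_mul, ← C_mul, ← C_neg, coeff_add, coeff_add, coeff_add, coeff_C_mul,
      coeff_C_mul, coeff_C_mul, sub_mul, coeff_sub, coeff_X_mul, coeff_C_mul,
      E_coeff_high b (n + 1) _ _ (by omega), E_coeff_high b n _ _ (by omega),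
      ih1 _ _ _ _ (m + 1) (by omega), ih2 _ _ _ _ (m + 1) (by omega), ih2 _ _ _ _ m (by omega)]
    simp

/-- infinitesimal uniqueness of the Euclid steps -/
lemma dchain_unique : ∀ (n : ℕ) (b β : ℝ) (v c w e : ℕ → ℝ), (∀ k < n, 0 < c k) →
    dE b β (n + 1) v c w e = 0 →
    dE b β n (fun k => v (k + 1)) (fun k => c (k + 1)) (fun k => w (k + 1)) (fun k => e (k + 1))
      = 0 →
    β = 0 ∧ (∀ k < n + 1, w k = 0) ∧ ∀ k < n, e k = 0 := by
  intro n
  induction n with
  | zero =>
    intro b β v c w e _ h _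
    rw [dE_one, ← C_mul, ← C_sub, C_eq_zero] at h
    have h2 := congrArg Complex.re h
    have h3 := congrArg Complex.im h
    simp at h2 h3
    refine ⟨h2, fun k hk => ?_, fun k hk => absurd hk (by omega)⟩
    obtain rfl : k = 0 := by omega
    exact h3
  | succ n ih =>
    intro b β v c w e hc h1 h2
    rw [dE_two, h2, mul_zero, add_zero] at h1
    have h3 := congrArg (fun P => P.coeff (n + 1)) h1
    rw [← C_mul, ← C_neg, coeff_add, coeff_add, coeff_C_mul, coeff_C_mul, coeff_C_mul,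
      E_coeff_top, E_coeff_high b n _ _ (by omega), dE_coeff b β n _ _ _ _ (n + 1) (by omega),
      coeff_zero, mul_zero, mul_zero, mul_one, add_zero, add_zero] at h3
    have hw : w 0 = 0 := by
      have h5 := congrArg Complex.im h3
      simp at h5
      exact h5
    rw [hw] at h1
    have h4 : C (e 0 : ℂ) * E b n (fun k => v (k + 2)) (fun k => c (k + 2))
      + C (c 0 : ℂ) * dE b β n (fun k => v (k + 2)) (fun k => c (k + 2))
          (fun k => w (k + 2)) (fun k => e (k + 2)) = 0 := by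
      rw [← h1]; simp
    have h5 := congrArg (fun P => P.coeff n) h4
    rw [coeff_add, coeff_C_mul, coeff_C_mul, E_coeff_top, dE_coeff b β n _ _ _ _ n le_rfl,
      coeff_zero, mul_zero, mul_one, add_zero] at h5
    have he : e 0 = 0 := by exact_mod_cast h5
    rw [he] at h4
    have hcne : (C (c 0 : ℂ) : ℂ[X]) ≠ 0 := by
      rw [Ne, C_eq_zero]
      exact_mod_cast (hc 0 (by omega)).ne'
    have h6 : dE b β n (fun k => v (k + 2)) (fun k => c (k + 2))
          (fun k => w (k + 2)) (fun k => e (k + 2)) = 0 := by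
      simp only [Complex.ofReal_zero, C_0, zero_mul, zero_add] at h4
      exact (mul_eq_zero.mp h4).resolve_left hcne
    obtain ⟨e1, e2, e3⟩ := ih b β (fun k => v (k + 1)) (fun k => c (k + 1)) (fun k => w (k + 1))
      (fun k => e (k + 1)) (fun k hk => hc (k + 1) (by omega)) h2 h6
    refine ⟨e1, fun k hk => ?_, fun k hk => ?_⟩
    · rcases k with _ | k
      · exact hw
      · exact e2 k (by omega)
    · rcases k with _ | k
      · exact he
      · exact e3 k (by omega)

/-- infinitesimal uniqueness of the spectral factor -/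
lemma dspec_unique {T T' : ℂ[X]} (hT : Hurwitz T) (hdeg : T'.degree < T.degree)
    (h : T' * sh T + T * sh T' = 0) : T' = 0 := by
  have hcop : IsCoprime T (sh T) := by
    rw [Polynomial.isCoprime_iff_aeval_ne_zero_of_isAlgClosed ℂ ℂ]
    intro a
    by_contra hcon
    push Not at hcon
    obtain ⟨h1, h2⟩ := hcon
    rw [coe_aeval_eq_eval] at h1 h2
    have h3 := hT.2 a h1
    rw [sh_eval, map_eq_zero] at h2
    have h4 := hT.2 _ h2
    simp only [Complex.neg_re, Complex.conj_re] at h4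
    linarith
  have h1 : T ∣ T' * sh T := ⟨-sh T', by linear_combination h⟩
  exact eq_zero_of_dvd_of_degree_lt (hcop.dvd_of_dvd_mul_right h1) hdeg

end Pool.Agent.JacT
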