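import Pool.Agent.JacT.Range

/-!
Every value above the sum of the positive real parts is attained by the first diagonal entry.
-/

open Polynomial Complex

noncomputable section

namespace Pool.Agent.JacT

lemma Psi_F (m : ℕ) (q : Fin (m + 2) → ℂ) {κ : ℝ} (hκ : 0 < κ) :
    F (Psi m (q, κ)).1 (Psi m (q, κ)).2.1 (m + 1) (ex (Psi m (q, κ)).2.2.2)
      (ex (Psi m (q, κ)).2.2.1) = poly q := by
  rw [Phi_F, (Psi_spec m (y := (q, κ)) hκ).2]

lemma Psi_prod (m : ℕ) (q : Fin (m + 2) → ℂ) {κ : ℝ} (hκ : 0 < κ) :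
    (Psi m (q, κ)).1 * (Psi m (q, κ)).2.1 *
      ∏ k ∈ Finset.range (m + 1), ex (Psi m (q, κ)).2.2.1 k = κ := by
  rw [Phi_prod, (Psi_spec m (y := (q, κ)) hκ).2]

theorem corner_exists (m : ℕ) (q : Fin (m + 2) → ℂ) {a : ℝ} (ha : sp (poly q).roots < a) :
    ∃ (b : ℝ) (v c : ℕ → ℝ), 0 < a ∧ 0 < b ∧ (∀ k < m + 1, 0 < c k) ∧
      F a b (m + 1) v c = poly q := by
  have hpos : ∀ κ : ℝ, 0 < κ → 0 < (Psi m (q, κ)).1 ∧ 0 < (Psi m (q, κ)).2.1 ∧
      ∀ k < m + 1, 0 < ex (Psi m (q, κ)).2.2.1 k := by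
    intro κ hκ
    obtain ⟨h1, h2, h3⟩ := (Psi_spec m (y := (q, κ)) hκ).1
    exact ⟨h1, h2, fun k hk => by rw [ex_lt _ hk]; exact h3 _⟩
  obtain ⟨κ₁, hκ₁, h1⟩ : ∃ κ : ℝ, 0 < κ ∧ (Psi m (q, κ)).1 < a := by
    set ε := (a - sp (poly q).roots) / ((m : ℝ) + 2) with hε
    have hm : (0 : ℝ) < (m : ℝ) + 2 := by positivity
    have hεpos : 0 < ε := div_pos (by linarith) hm
    have hp : 0 < (ε ^ 2) ^ (m + 1 + 1) := by positivity
    refine ⟨(ε ^ 2) ^ (m + 1 + 1) / 8, by positivity, ?_⟩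
    have h := corner_small (Psi_F m q (κ := (ε ^ 2) ^ (m + 1 + 1) / 8) (by positivity)) hεpos
      (by rw [Psi_prod m q (by positivity)]; linarith)
    have h2 : ε * (((m + 1 : ℕ) : ℝ) + 1) = a - sp (poly q).roots := by
      rw [hε]; push_cast; field_simp; ring
    rw [h2] at h
    linarith
  obtain ⟨κ₂, hκ₂, h2⟩ : ∃ κ : ℝ, 0 < κ ∧ a < (Psi m (q, κ)).1 := by
    by_contra hcon
    push Not at hcon
    set P := poly q with hP
    set K := (P.coeff (m + 1)).re with hK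
    set D := (P.coeff m).re + (P.coeff (m + 1)).im ^ 2 / 2 with hD
    set L := a * (a + K) * (D + a * (a + K)) ^ (m + 1) with hL
    have key : ∀ κ : ℝ, 0 < κ → κ ≤ L := by
      intro κ hκ
      obtain ⟨g1, g2, g3⟩ := hpos κ hκ
      have g4 := hcon κ hκ
      have g5 := congrArg Complex.re (F_coeff_one (Psi m (q, κ)).1 (Psi m (q, κ)).2.1 (m + 1)
        (ex (Psi m (q, κ)).2.2.2) (ex (Psi m (q, κ)).2.2.1))
      rw [Psi_F m q hκ, ← hP, ← hK] at g5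
      have g6 : K = (Psi m (q, κ)).2.1 - (Psi m (q, κ)).1 := by
        rw [g5]; simp
      obtain ⟨g7, g8⟩ := prod_bound g1 g2 g3 (Psi_F m q hκ)
      rw [Psi_prod m q hκ, ← hP, ← hD] at g8
      rw [← hP, ← hD] at g7
      have g9 : (Psi m (q, κ)).1 * (Psi m (q, κ)).2.1 ≤ a * (a + K) := by
        refine mul_le_mul g4 (by linarith) g2.le (by linarith)
      have g10 : 0 < (Psi m (q, κ)).1 * (Psi m (q, κ)).2.1 := mul_pos g1 g2
      refine g8.trans (mul_le_mul g9 (pow_le_pow_left₀ g7 (by linarith) _) (by positivity)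
        (by linarith))
    have h3 := key (|L| + 1) (by positivity)
    have h4 := le_abs_self L
    linarith
  have hcont : ContinuousOn (fun κ : ℝ => (Psi m (q, κ)).1) (Set.Ioi 0) := by
    intro κ hκ
    have h3 : ContinuousAt (Psi m) (q, κ) := (Psi_analytic m (y := (q, κ)) hκ).continuousAt
    have h4 : ContinuousAt (fun κ : ℝ => ((q, κ) : Coe m)) κ := by fun_prop
    have h5 : ContinuousAt (fun κ : ℝ => Psi m (q, κ)) κ :=
      ContinuousAt.comp (f := fun κ : ℝ => ((q, κ) : Coe m)) (g := Psi m) h3 h4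
    exact h5.fst.continuousWithinAt
  have hivt := isPreconnected_Ioi.intermediate_value (s := Set.Ioi (0 : ℝ)) hκ₁ hκ₂ hcont
  obtain ⟨κ, hκ, h3⟩ := hivt ⟨h1.le, h2.le⟩
  simp only at h3
  obtain ⟨g1, g2, g3⟩ := hpos κ hκ
  refine ⟨(Psi m (q, κ)).2.1, ex (Psi m (q, κ)).2.2.2, ex (Psi m (q, κ)).2.2.1, ?_, g2, g3, ?_⟩
  · rw [← h3]; exact g1
  · have h4 := Psi_F m q (κ := κ) hκ
    rwa [h3] at h4

end Pool.Agent.JacT
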