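import Pool.Agent.JacT.Chain

/-!
Existence in the inverse problem.
-/

open Polynomial Complex

noncomputable section

namespace Pool.Agent.JacT

/-- on the axis, the form `Y · sh X + X · sh Y` is twice the real part of `Y conj X` -/
lemma form_real {X₁ Y : ℂ[X]} {δ : ℝ} (h : Y * sh X₁ + X₁ * sh Y = C ((2 * δ : ℝ) : ℂ)) (y : ℝ) :
    (Y.eval (y * I) * (starRingEnd ℂ) (X₁.eval (y * I))).re = δ := by
  have h1 := congrArg (fun P => (P.eval (y * I)).re) h
  simp only [eval_add, eval_mul, sh_eval_axis, eval_C, Complex.add_re, Complex.mul_re,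
    Complex.conj_re, Complex.conj_im, Complex.ofReal_re] at h1 ⊢
  linarith

lemma peel {X₁ Y : ℂ[X]} {m : ℕ} {δ : ℝ} (hX : Hurwitz X₁) (hXm : X₁.Monic)
    (hXd : X₁.natDegree = m + 1) (hY : Y.natDegree < m + 1) (hδ : 0 < δ)
    (h : Y * sh X₁ + X₁ * sh Y = C ((2 * δ : ℝ) : ℂ)) :
    ∃ (w : ℝ) (D : ℂ[X]), 0 < w ∧ D.Monic ∧ D.natDegree = m ∧ Hurwitz D ∧
      Y = C (w : ℂ) * D ∧ D * sh X₁ + X₁ * sh D = C ((2 * (δ / w) : ℝ) : ℂ) := by
  have hax : ∀ y : ℝ, 0 < (Y.eval (y * I) / X₁.eval (y * I)).re := by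
    intro y
    have hne : X₁.eval (y * I) ≠ 0 := hX.eval_ne (by simp)
    have h1 := form_real h y
    rw [Complex.div_re]
    rw [Complex.mul_re, Complex.conj_re, Complex.conj_im] at h1
    rw [← add_div]
    refine div_pos ?_ (Complex.normSq_pos.mpr hne)
    linarith
  have hcl : ∀ z : ℂ, 0 ≤ z.re → 0 < (Y.eval z / X₁.eval z).re := fun z hz =>
    pos_real hX (by omega) hax hz
  have hYne : ∀ z : ℂ, 0 ≤ z.re → Y.eval z ≠ 0 := fun z hz h0 => by
    have := hcl z hz
    rw [h0] at this; simp at this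
  have hY0 : Y ≠ 0 := by
    rintro rfl
    exact hYne 0 (by simp) (by simp)
  obtain ⟨hdeg, w, hw, hlc⟩ := pos_real_lead hX.1 hY0 (by omega) hcl
  rw [hXm.leadingCoeff, div_one] at hlc
  have hwne : (w : ℂ) ≠ 0 := by exact_mod_cast hw.ne'
  have hfac : Y = C (w : ℂ) * (C ((w : ℂ)⁻¹) * Y) := by
    rw [← mul_assoc, ← C_mul, mul_inv_cancel₀ hwne, C_1, one_mul]
  refine ⟨w, C ((w : ℂ)⁻¹) * Y, hw, ?_, ?_, ⟨?_, ?_⟩, hfac, ?_⟩
  · rw [Monic, leadingCoeff_mul, leadingCoeff_C, hlc, inv_mul_cancel₀ hwne]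
  · rw [natDegree_C_mul (inv_ne_zero hwne)]; omega
  · exact mul_ne_zero (C_ne_zero.mpr (inv_ne_zero hwne)) hY0
  · intro z hz
    by_contra hcon
    push Not at hcon
    rw [eval_mul, eval_C, mul_eq_zero] at hz
    rcases hz with hz | hz
    · exact inv_ne_zero hwne hz
    · exact hYne z hcon hz
  · have h2 : sh (C ((w : ℂ)⁻¹) * Y) = C ((w : ℂ)⁻¹) * sh Y := by
      rw [sh_mul, sh_C, ← Complex.ofReal_inv, Complex.conj_ofReal]
    rw [h2]
    have h3 : C ((w : ℂ)⁻¹) * Y * sh X₁ + X₁ * (C ((w : ℂ)⁻¹) * sh Y)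
        = C ((w : ℂ)⁻¹) * (Y * sh X₁ + X₁ * sh Y) := by ring
    rw [h3, h, ← C_mul]
    congr 1
    push_cast
    field_simp

/-- prepend a value to a sequence -/
def pre (x : ℝ) (v : ℕ → ℝ) : ℕ → ℝ := fun k => Nat.casesOn k x v

lemma pre_zero (x : ℝ) (v : ℕ → ℝ) : pre x v 0 = x := rfl
lemma pre_succ (x : ℝ) (v : ℕ → ℝ) (k : ℕ) : pre x v (k + 1) = v k := rfl

theorem chain_exists : ∀ (n : ℕ) (A B : ℂ[X]) (δ : ℝ), 0 < δ → A.Monic → A.natDegree = n + 1 →
    B.Monic → B.natDegree = n → Hurwitz B →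
    B * sh A + A * sh B = C ((2 * δ : ℝ) : ℂ) →
    ∃ (b : ℝ) (v c : ℕ → ℝ), 0 < b ∧ (∀ k < n, 0 < c k) ∧ A = E b (n + 1) v c ∧
      B = E b n (fun k => v (k + 1)) (fun k => c (k + 1)) ∧
      b * ∏ k ∈ Finset.range n, c k = δ := by
  intro n
  induction n with
  | zero =>
    intro A B δ hδ hA hAd hB hBd _ h
    have hB1 : B = 1 := eq_one_of_monic_natDegree_zero hB hBd
    subst hB1
    obtain ⟨s, hs⟩ : ∃ s : ℂ, A = X - C s := by
      refine ⟨-A.coeff 0, ?_⟩
      rw [C_neg, sub_neg_eq_add]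
      exact hA.eq_X_add_C hAd
    have h1 : s.re = -δ := by
      rw [hs, sh_one, sh_X_sub_C] at h
      have h2 := congrArg (fun P => (P.eval 0).re) h
      simp at h2
      linarith
    refine ⟨δ, fun _ => s.im, fun _ => 0, hδ, fun k hk => absurd hk (by omega), ?_, ?_, by simp⟩
    · rw [E_one, hs]
      have h3 : s = I * (s.im : ℂ) - (δ : ℂ) := by
        apply Complex.ext
        · simp [h1]
        · simp
      conv_lhs => rw [h3]
      rw [C_sub]; ring
    · rw [E_zero]
  | succ n ih =>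
    intro A B δ hδ hA hAd hB hBd hBH h
    have hdm := modByMonic_add_div A B
    set Q := A /ₘ B with hQ
    set R := A %ₘ B with hR
    have hQd : Q.natDegree = 1 := by
      rw [hQ, natDegree_divByMonic A hB, hAd, hBd]; omega
    have hQm : Q.Monic := by
      rw [Monic, hQ, leadingCoeff_divByMonic_of_monic hB, hA.leadingCoeff]
      exact (degree_lt_degree (by rw [hAd, hBd]; omega)).le
    have hRd : R.natDegree < n + 1 := by
      rw [← hBd]
      refine natDegree_modByMonic_lt A hB ?_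
      intro h1
      rw [h1, natDegree_one] at hBd
      omega
    obtain ⟨s, hs⟩ : ∃ s : ℂ, Q = X - C s := by
      refine ⟨-Q.coeff 0, ?_⟩
      rw [C_neg, sub_neg_eq_add]
      exact hQm.eq_X_add_C hQd
    have hform : C ((-(2 * s.re) : ℝ) : ℂ) * (B * sh B) + (R * sh B + B * sh R)
        = C ((2 * δ : ℝ) : ℂ) := by
      rw [← h, ← hdm, hs, sh_add, sh_mul, sh_X_sub_C]
      have h3 : C ((-(2 * s.re) : ℝ) : ℂ) = -C s - C ((starRingEnd ℂ) s) := by
        rw [← C_neg, ← C_sub]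
        congr 1
        apply Complex.ext
        · simp; ring
        · simp
      rw [h3, C_neg]; ring
    have hre : s.re = 0 := by
      by_contra hne
      have hne' : ((-(2 * s.re) : ℝ) : ℂ) ≠ 0 := by
        rw [Ne, Complex.ofReal_eq_zero]
        intro h0; exact hne (by linarith)
      have h4 : (C ((-(2 * s.re) : ℝ) : ℂ) * (B * sh B)).natDegree = 2 * (n + 1) := by
        rw [natDegree_C_mul hne', natDegree_mul hB.ne_zero (sh_ne_zero hB.ne_zero), natDegree_sh,
          hBd]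
        ring
      have h5 : C ((-(2 * s.re) : ℝ) : ℂ) * (B * sh B)
          = C ((2 * δ : ℝ) : ℂ) - (R * sh B + B * sh R) := by
        rw [← hform]; ring
      have h6 : (C ((2 * δ : ℝ) : ℂ) - (R * sh B + B * sh R)).natDegree ≤ 2 * n + 1 := by
        refine (natDegree_sub_le _ _).trans (max_le ?_ ?_)
        · rw [natDegree_C]; omega
        · refine (natDegree_add_le _ _).trans (max_le ?_ ?_)
          · refine natDegree_mul_le.trans ?_
            rw [natDegree_sh, hBd]; omega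
          · refine natDegree_mul_le.trans ?_
            rw [natDegree_sh, hBd]; omega
      rw [← h5, h4] at h6
      omega
    rw [hre] at hform
    have hform2 : R * sh B + B * sh R = C ((2 * δ : ℝ) : ℂ) := by
      rw [← hform]; simp
    obtain ⟨w, D, hw, hDm, hDd, hDH, hRD, hD⟩ := peel hBH hB hBd hRd hδ hform2
    obtain ⟨b, v, c, hb, hc, hBE, hDE, hprod⟩ := ih B D (δ / w) (div_pos hδ hw) hB hBd hDm hDd hDH hD
    refine ⟨b, pre s.im v, pre w c, hb, fun k hk => ?_, ?_, ?_, ?_⟩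
    · rcases k with _ | k
      · exact hw
      · exact hc k (by omega)
    · have h7 : s = I * (s.im : ℂ) := by
        apply Complex.ext
        · simp [hre]
        · simp
      rw [E_two]
      simp only [pre_succ, pre_zero]
      rw [← hBE, ← hDE, ← h7, ← hs, ← hRD, ← hdm]
      ring
    · simp only [pre_succ]; exact hBE
    · rw [Finset.prod_range_succ']
      simp only [pre_succ, pre_zero]
      rw [← mul_assoc, hprod]
      field_simp

/-- every complex monic polynomial of degree `n + 1` comes from a doubly loaded chain with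
prescribed product `κ` -/
theorem F_exists (n : ℕ) (p : ℂ[X]) (hp : p.Monic) (hd : p.natDegree = n + 1) (κ : ℝ)
    (hκ : 0 < κ) :
    ∃ (a b : ℝ) (v c : ℕ → ℝ), 0 < a ∧ 0 < b ∧ (∀ k < n, 0 < c k) ∧ F a b n v c = p ∧
      a * b * ∏ k ∈ Finset.range n, c k = κ := by
  obtain ⟨T, hTm, hTH, hTd, hT⟩ := spec_monic hp (by omega) (k := 4 * κ) (by linarith)
  have hlt : ∀ z : ℂ, 0 ≤ z.re → ‖p.eval z‖ < ‖T.eval z‖ := fun z hz => by
    refine lt_of_axis hTH (by omega) (fun y => ?_) hz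
    have h1 := congrArg (fun P => (P.eval (y * I)).re) hT
    rw [form_axis, mul_sh_axis, Complex.ofReal_re, Complex.ofReal_re, Complex.normSq_eq_norm_sq,
      Complex.normSq_eq_norm_sq] at h1
    nlinarith [norm_nonneg (p.eval (y * I)), norm_nonneg (T.eval (y * I))]
  have h2 : ((2 : ℂ)⁻¹) ≠ 0 := by norm_num
  set A := C ((2 : ℂ)⁻¹) * (T + p) with hA
  set N := C ((2 : ℂ)⁻¹) * (T - p) with hN
  have hC2 : (C ((2 : ℂ)⁻¹) : ℂ[X]) * 2 = 1 := by
    have : (2 : ℂ[X]) = C (2 : ℂ) := rfl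
    rw [this, ← C_mul, inv_mul_cancel₀ (two_ne_zero), C_1]
  have hpA : A - N = p := by
    rw [hA, hN]; linear_combination p * hC2
  have hTA : A + N = T := by
    rw [hA, hN]; linear_combination T * hC2
  have hNd : N.natDegree < n + 1 := by
    rw [hN]
    refine lt_of_le_of_lt (natDegree_C_mul_le _ _) ?_
    by_cases h0 : T - p = 0
    · rw [h0, natDegree_zero]; omega
    · have h3 : (T - p).degree < T.degree := by
        refine degree_sub_lt_left ?_ hTm.ne_zero ?_
        · rw [degree_eq_natDegree hTm.ne_zero, degree_eq_natDegree hp.ne_zero, hTd]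
        · rw [hTm.leadingCoeff, hp.leadingCoeff]
      have h4 := natDegree_lt_natDegree h0 h3
      omega
  have hAm : A.Monic := by
    have h3 : A = p + N := by rw [← hpA]; ring
    rw [h3]
    exact hp.add_of_left (degree_lt_degree (by omega))
  have hAd : A.natDegree = n + 1 := by
    have h3 : A = p + N := by rw [← hpA]; ring
    rw [h3, natDegree_add_eq_left_of_natDegree_lt (by omega), hd]
  have hAH : Hurwitz A := by
    refine ⟨hAm.ne_zero, fun z hz => ?_⟩
    by_contra hcon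
    push Not at hcon
    have h3 := hlt z hcon
    rw [hA, eval_mul, eval_C, eval_add, mul_eq_zero] at hz
    rcases hz with hz | hz
    · exact h2 hz
    · rw [eq_neg_of_add_eq_zero_left hz, norm_neg] at h3
      exact lt_irrefl _ h3
  have hform : N * sh A + A * sh N = C ((2 * κ : ℝ) : ℂ) := by
    have h3 : 2 * (N * sh A + A * sh N) = (A + N) * sh (A + N) - (A - N) * sh (A - N) := by
      rw [sh_add, sh_sub]; ring
    rw [hTA, hpA, hT] at h3
    have h4 : (C ((4 * κ : ℝ) : ℂ) : ℂ[X]) = 2 * C ((2 * κ : ℝ) : ℂ) := by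
      have : (2 : ℂ[X]) = C (2 : ℂ) := rfl
      rw [this, ← C_mul]; congr 1; push_cast; ring
    rw [h4, add_sub_cancel_left] at h3
    exact mul_left_cancel₀ two_ne_zero h3
  obtain ⟨a, B, ha, hBm, hBd, hBH, hNB, hB⟩ := peel hAH hAm hAd hNd hκ hform
  obtain ⟨b, v, c, hb, hc, hAE, hBE, hprod⟩ :=
    chain_exists n A B (κ / a) (div_pos hκ ha) hAm hAd hBm hBd hBH hB
  refine ⟨a, b, v, c, ha, hb, hc, ?_, ?_⟩
  · unfold F
    rw [← hAE, ← hBE, ← hNB, hpA]
  · rw [mul_assoc, hprod]; field_simp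

end Pool.Agent.JacT
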