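import Pool.Agent.JacT.Smooth

/-!
The global real-analytic section.
-/

open Polynomial Complex
open scoped ContDiff

noncomputable section

namespace Pool.Agent.JacT

/-- the monic polynomial with given lower coefficients -/
def poly {n : ℕ} (q : Fin n → ℂ) : ℂ[X] := X ^ n + ∑ i : Fin n, C (q i) * X ^ (i : ℕ)

lemma poly_low {n : ℕ} (q : Fin n → ℂ) :
    (∑ i : Fin n, C (q i) * X ^ (i : ℕ) : ℂ[X]).degree < n := by
  rw [degree_lt_iff_coeff_zero]
  intro m hm
  rw [finsetSum_coeff]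
  refine Finset.sum_eq_zero fun i _ => ?_
  rw [coeff_C_mul_X_pow, if_neg]
  have := i.2
  omega

lemma poly_monic {n : ℕ} (q : Fin n → ℂ) : (poly q).Monic := monic_X_pow_add (poly_low q)

lemma poly_natDegree {n : ℕ} (q : Fin n → ℂ) : (poly q).natDegree = n := by
  rw [poly, natDegree_add_eq_left_of_degree_lt, natDegree_X_pow]
  rw [degree_X_pow]
  exact poly_low q

lemma poly_coeff {n : ℕ} (q : Fin n → ℂ) (i : Fin n) : (poly q).coeff i = q i := by
  rw [poly, coeff_add, coeff_X_pow, if_neg (by omega), zero_add, finsetSum_coeff]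
  simp only [coeff_C_mul_X_pow]
  rw [Finset.sum_eq_single i]
  · simp
  · intro j _ hj
    rw [if_neg]
    intro h; exact hj (Fin.ext h.symm)
  · intro h; exact absurd (Finset.mem_univ i) h

lemma eq_poly {n : ℕ} {P : ℂ[X]} (hP : P.Monic) (hd : P.natDegree = n) {q : Fin n → ℂ}
    (h : ∀ i : Fin n, P.coeff i = q i) : P = poly q := by
  ext k
  rcases lt_trichotomy k n with hk | hk | hk
  · exact (h ⟨k, hk⟩).trans (poly_coeff q ⟨k, hk⟩).symm
  · subst hk
    have h1 : P.coeff k = 1 := by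
      have := hP; rwa [Monic, leadingCoeff, hd] at this
    have h2 : (poly q).coeff k = 1 := by
      have := poly_monic q; rwa [Monic, leadingCoeff, poly_natDegree] at this
    rw [h1, h2]
  · rw [coeff_eq_zero_of_natDegree_lt (by omega),
      coeff_eq_zero_of_natDegree_lt (by rw [poly_natDegree]; omega)]

lemma Phi_surj (m : ℕ) {y : Coe m} (hy : 0 < y.2) : ∃ x : Par m, x ∈ Om m ∧ Phi m x = y := by
  obtain ⟨a, b, v, c, ha, hb, hc, hF, hprod⟩ :=
    F_exists (m + 1) (poly y.1) (poly_monic _) (poly_natDegree _) y.2 hy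
  refine ⟨(a, b, fun i => c i, fun i => v i), ⟨ha, hb, fun i => hc i i.2⟩, ?_⟩
  have hFe : F a b (m + 1) (ex fun i : Fin (m + 2) => v i) (ex fun i : Fin (m + 1) => c i)
      = F a b (m + 1) v c :=
    F_congr a b (m + 1) _ _ _ _ (fun k hk => by rw [ex_lt _ hk]) (fun k hk => by rw [ex_lt _ hk])
  refine Prod.ext ?_ ?_
  · funext i
    change (F a b (m + 1) (ex fun i : Fin (m + 2) => v i) (ex fun i : Fin (m + 1) => c i)).coeff i
      = y.1 i
    rw [hFe, hF, poly_coeff]
  · change a * b * ∏ i : Fin (m + 1), c i = y.2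
    rw [← hprod, Finset.prod_range]

lemma Phi_F (m : ℕ) (x : Par m) :
    F x.1 x.2.1 (m + 1) (ex x.2.2.2) (ex x.2.2.1) = poly (Phi m x).1 :=
  eq_poly (F_monic _ _ _ _ _).1 (F_monic _ _ _ _ _).2 (fun _ => rfl)

lemma Phi_prod (m : ℕ) (x : Par m) :
    x.1 * x.2.1 * ∏ k ∈ Finset.range (m + 1), ex x.2.2.1 k = (Phi m x).2 := by
  rw [Finset.prod_range]
  simp only [ex_val, Phi]

lemma Phi_inj (m : ℕ) : Set.InjOn (Phi m) (Om m) := by
  intro x hx y hy h
  have hFF : F x.1 x.2.1 (m + 1) (ex x.2.2.2) (ex x.2.2.1)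
      = F y.1 y.2.1 (m + 1) (ex y.2.2.2) (ex y.2.2.1) := by rw [Phi_F, Phi_F, h]
  obtain ⟨g1, g2, g3, g4⟩ := F_unique hx.1 hx.2.1
    (fun k hk => by rw [ex_lt _ hk]; exact hx.2.2 _) hy.1 hy.2.1
    (fun k hk => by rw [ex_lt _ hk]; exact hy.2.2 _) hFF
    (by rw [Phi_prod, Phi_prod, h])
  refine Prod.ext g1 (Prod.ext g2 (Prod.ext ?_ ?_))
  · funext i
    have := g4 i i.2
    rwa [ex_val, ex_val] at this
  · funext i
    have := g3 i i.2
    rwa [ex_val, ex_val] at this

/-- the inverse of the parametrisation -/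
def Psi (m : ℕ) (y : Coe m) : Par m := open Classical in
  if h : 0 < y.2 then (Phi_surj m h).choose else 0

lemma Psi_spec (m : ℕ) {y : Coe m} (hy : 0 < y.2) : Psi m y ∈ Om m ∧ Phi m (Psi m y) = y := by
  rw [Psi, dif_pos hy]
  exact (Phi_surj m hy).choose_spec

lemma finrank_eq (m : ℕ) : Module.finrank ℝ (Par m) = Module.finrank ℝ (Coe m) := by
  rw [Module.finrank_prod, Module.finrank_prod, Module.finrank_prod, Module.finrank_prod,
    Module.finrank_pi_fintype, Module.finrank_pi_fintype, Module.finrank_pi_fintype]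
  simp only [Module.finrank_self, Complex.finrank_real_complex, Finset.sum_const,
    Finset.card_univ, Fintype.card_fin, smul_eq_mul]
  ring

lemma Psi_analytic (m : ℕ) {y : Coe m} (hy : 0 < y.2) : AnalyticAt ℝ (Psi m) y := by
  have hS : IsOpen {y : Coe m | 0 < y.2} := isOpen_lt continuous_const continuous_snd
  have h := inverse_smooth (finrank_eq m) (Om_open m) hS (Phi_smooth m) (Phi_inj m)
    (fun y hy => Psi_spec m hy) (fun x hx => Phi_deriv m hx) (show y ∈ {y : Coe m | 0 < y.2} from hy)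
  exact h.analyticAt

end Pool.Agent.JacT
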