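import Mathlib

/-!
A bijection with injective derivatives has an analytic inverse.
-/

open Filter Topology
open scoped ContDiff

noncomputable section

namespace Pool.Agent.JacT

theorem inverse_smooth {X Y : Type*} [NormedAddCommGroup X] [NormedSpace ℝ X]
    [FiniteDimensional ℝ X] [NormedAddCommGroup Y] [NormedSpace ℝ Y] [FiniteDimensional ℝ Y]
    (hdim : Module.finrank ℝ X = Module.finrank ℝ Y) {Φ : X → Y} {Ψ : Y → X} {U : Set X}
    {S : Set Y} (hU : IsOpen U) (hS : IsOpen S) (hΦ : ContDiff ℝ ω Φ) (hinj : Set.InjOn Φ U)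
    (hΨ : ∀ y ∈ S, Ψ y ∈ U ∧ Φ (Ψ y) = y)
    (hder : ∀ x ∈ U, Function.Injective (fderiv ℝ Φ x)) {y : Y} (hy : y ∈ S) :
    ContDiffAt ℝ ω Ψ y := by
  have : CompleteSpace X := FiniteDimensional.complete ℝ X
  obtain ⟨hx, hxy⟩ := hΨ y hy
  set x := Ψ y with hxdef
  have hdiff : DifferentiableAt ℝ Φ x := (hΦ.differentiable (by simp)).differentiableAt
  let e : X ≃ₗ[ℝ] Y := LinearMap.linearEquivOfInjective (fderiv ℝ Φ x : X →ₗ[ℝ] Y) (hder x hx) hdim
  let f' : X ≃L[ℝ] Y := e.toContinuousLinearEquiv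
  have hf' : HasFDerivAt Φ (f' : X →L[ℝ] Y) x := by
    have h1 : (f' : X →L[ℝ] Y) = fderiv ℝ Φ x := by
      ext z
      rfl
    rw [h1]
    exact hdiff.hasFDerivAt
  have hn : (ω : WithTop ℕ∞) ≠ 0 := by simp
  have hcd : ContDiffAt ℝ ω Φ x := hΦ.contDiffAt
  have hs : HasStrictFDerivAt Φ (f' : X →L[ℝ] Y) x := hcd.hasStrictFDerivAt' hf' hn
  have h1 : ContDiffAt ℝ ω (hs.localInverse Φ f' x) y := by
    have := hcd.to_localInverse hf' hn
    rw [hxy] at this
    exact this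
  refine h1.congr_of_eventuallyEq ?_
  have h2 : ∀ᶠ z in 𝓝 y, Φ (hs.localInverse Φ f' x z) = z := by
    have := hs.eventually_right_inverse
    rwa [hxy] at this
  have h3 : Tendsto (hs.localInverse Φ f' x) (𝓝 y) (𝓝 x) := by
    have := hs.localInverse_tendsto
    rwa [hxy] at this
  filter_upwards [h2, h3.eventually (hU.mem_nhds hx), hS.mem_nhds hy] with z hz1 hz2 hz3
  obtain ⟨g1, g2⟩ := hΨ z hz3
  exact hinj g1 hz2 (by rw [g2, hz1])

end Pool.Agent.JacT
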