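import Pool.Agent.JacT.Det
import Pool.Agent.JacT.Defs

/-!
From matrices to chains and back.
-/

open Polynomial Complex Matrix

noncomputable section

namespace Pool.Agent.JacT

/-- extension of a finite sequence by zero -/
def ex {k : ℕ} (f : Fin k → ℝ) : ℕ → ℝ := fun i => if h : i < k then f ⟨i, h⟩ else 0

lemma ex_val {k : ℕ} (f : Fin k → ℝ) (i : Fin k) : ex f (i : ℕ) = f i := by
  simp [ex]

lemma ex_lt {k : ℕ} (f : Fin k → ℝ) {i : ℕ} (h : i < k) : ex f i = f ⟨i, h⟩ := by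
  simp [ex, h]

/-- the sequence of products of off-diagonal entries, with a minus sign -/
def cc {m : ℕ} (A : Matrix (Fin (m + 2)) (Fin (m + 2)) ℝ) : Fin (m + 1) → ℝ :=
  fun i => A i.castSucc i.succ * (-A i.succ i.castSucc)

lemma charpoly_cx {m : ℕ} {A : Matrix (Fin (m + 2)) (Fin (m + 2)) ℝ} (hA : InT A)
    (v : Fin (m + 2) → ℝ) :
    (cx A v).charpoly
      = F (A 0 0) (-A (Fin.last (m + 1)) (Fin.last (m + 1))) (m + 1) (ex v) (ex (cc A)) := by
  rw [← tri_F _ _ (m + 1) (ex v) (ex (cc A))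
    (fun k => -C ((ex (fun i : Fin (m + 1) => A i.castSucc i.succ) k : ℝ) : ℂ))
    (fun k => -C ((ex (fun i : Fin (m + 1) => A i.succ i.castSucc) k : ℝ) : ℂ))]
  · rw [Matrix.charpoly]
    congr 1
    ext1 i j
    rw [charmatrix_apply]
    simp only [tri]
    by_cases hij : i = j
    · subst hij
      rw [if_pos rfl, Matrix.diagonal_apply_eq, cx, if_pos rfl, dg2, dg, ex_val]
      by_cases h0 : i = 0
      · subst h0
        rw [if_neg (by simp), if_pos (by simp), add_zero, C_add]; ring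
      · have h0' : (i : ℕ) ≠ 0 := fun h => h0 (Fin.ext h)
        by_cases hl : i = Fin.last (m + 1)
        · subst hl
          rw [if_pos (by simp), if_neg h0', sub_zero, C_add]
          push_cast
          rw [C_neg]; ring
        · have hl' : (i : ℕ) + 1 ≠ m + 1 + 1 := fun h => hl (Fin.ext (by simp; omega))
          rw [if_neg hl', if_neg h0', hA.mid i h0 hl]; simp
    · have hij' : (i : ℕ) ≠ j := fun h => hij (Fin.ext h)
      rw [if_neg hij', Matrix.diagonal_apply_ne _ hij, cx, if_neg hij, add_zero, zero_sub]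
      by_cases h1 : (j : ℕ) = i + 1
      · rw [if_pos h1]
        have hi : (i : ℕ) < m + 1 := by omega
        have e1 : i = Fin.castSucc ⟨i, hi⟩ := Fin.ext rfl
        have e2 : j = Fin.succ ⟨i, hi⟩ := Fin.ext h1
        rw [ex_lt _ hi, ← e1, ← e2]
      · rw [if_neg h1]
        by_cases h2 : (i : ℕ) = j + 1
        · rw [if_pos h2]
          have hj : (j : ℕ) < m + 1 := by omega
          have e1 : j = Fin.castSucc ⟨j, hj⟩ := Fin.ext rfl
          have e2 : i = Fin.succ ⟨j, hj⟩ := Fin.ext h2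
          rw [ex_lt _ hj, ← e1, ← e2]
        · rw [if_neg h2, hA.band i j (by omega)]; simp
  · intro k hk
    rw [ex_lt _ hk, ex_lt _ hk, ex_lt _ hk, neg_mul_neg, ← C_mul, cc, ← C_neg]
    congr 1
    push_cast; ring

lemma weight_eq {m : ℕ} (A : Matrix (Fin (m + 2)) (Fin (m + 2)) ℝ) :
    A 0 0 * (-A (Fin.last (m + 1)) (Fin.last (m + 1))) *
      ∏ k ∈ Finset.range (m + 1), ex (cc A) k = weight A := by
  rw [weight, Finset.prod_range]
  congr 1
  refine Finset.prod_congr rfl fun i _ => ?_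
  rw [ex_val, cc]

/-- the normalised matrix with given data -/
def nf (m : ℕ) (a b : ℝ) (c : ℕ → ℝ) : Matrix (Fin (m + 2)) (Fin (m + 2)) ℝ :=
  fun i j => if (i : ℕ) = j then (if (i : ℕ) = 0 then a else 0) - (if (i : ℕ) = m + 1 then b else 0)
    else if (j : ℕ) = i + 1 then 1 else if (i : ℕ) = j + 1 then -c j else 0

lemma nf_first (m : ℕ) (a b : ℝ) (c : ℕ → ℝ) : nf m a b c 0 0 = a := by
  simp [nf]

lemma nf_last (m : ℕ) (a b : ℝ) (c : ℕ → ℝ) :
    nf m a b c (Fin.last (m + 1)) (Fin.last (m + 1)) = -b := by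
  simp [nf]

lemma nf_sup (m : ℕ) (a b : ℝ) (c : ℕ → ℝ) (i : Fin (m + 1)) :
    nf m a b c i.castSucc i.succ = 1 := by
  simp [nf]

lemma nf_sub (m : ℕ) (a b : ℝ) (c : ℕ → ℝ) (i : Fin (m + 1)) :
    nf m a b c i.succ i.castSucc = -c i := by
  simp only [nf, Fin.val_succ, Fin.val_castSucc]
  rw [if_neg (by omega), if_neg (by omega), if_pos trivial]

lemma nf_inT {m : ℕ} {a b : ℝ} {c : ℕ → ℝ} (ha : 0 < a) (hb : 0 < b)
    (hc : ∀ k < m + 1, 0 < c k) : InT (nf m a b c) where
  band := by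
    intro i j h
    simp only [nf]
    rw [if_neg (by omega), if_neg (by omega), if_neg (by omega)]
  sup := fun i => by rw [nf_sup]; exact one_pos
  sub := fun i => by rw [nf_sub]; linarith [hc i i.2]
  first := by rw [nf_first]; exact ha
  last := by rw [nf_last]; linarith
  mid := by
    intro i h0 hl
    have h0' : (i : ℕ) ≠ 0 := fun h => h0 (Fin.ext h)
    have hl' : (i : ℕ) ≠ m + 1 := fun h => hl (Fin.ext h)
    simp only [nf]
    rw [if_pos trivial, if_neg h0', if_neg hl', sub_zero]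

lemma nf_cc (m : ℕ) (a b : ℝ) (c : ℕ → ℝ) (i : Fin (m + 1)) : cc (nf m a b c) i = c i := by
  rw [cc, nf_sup, nf_sub]; ring

lemma E_congr (b : ℝ) : ∀ (n : ℕ) (v v' c c' : ℕ → ℝ), (∀ k < n, v k = v' k) →
    (∀ k, k + 1 < n → c k = c' k) → E b n v c = E b n v' c' := by
  intro n
  induction n using Nat.twoStepInduction with
  | zero => intro v v' c c' _ _; rw [E_zero, E_zero]
  | one => intro v v' c c' h _; rw [E_one, E_one, h 0 (by omega)]
  | more n ih1 ih2 =>
    intro v v' c c' h h'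
    rw [E_two, E_two, h 0 (by omega), h' 0 (by omega),
      ih1 (fun k => v (k + 2)) (fun k => v' (k + 2)) (fun k => c (k + 2)) (fun k => c' (k + 2))
        (fun k hk => h _ (by omega)) (fun k hk => h' _ (by omega)),
      ih2 (fun k => v (k + 1)) (fun k => v' (k + 1)) (fun k => c (k + 1)) (fun k => c' (k + 1))
        (fun k hk => h _ (by omega)) (fun k hk => h' _ (by omega))]

lemma F_congr (a b : ℝ) (n : ℕ) (v v' c c' : ℕ → ℝ) (h : ∀ k < n + 1, v k = v' k)
    (h' : ∀ k < n, c k = c' k) : F a b n v c = F a b n v' c' := by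
  unfold F
  rw [E_congr b (n + 1) v v' c c' h (fun k hk => h' k (by omega)),
    E_congr b n (fun k => v (k + 1)) (fun k => v' (k + 1)) (fun k => c (k + 1))
      (fun k => c' (k + 1)) (fun k hk => h _ (by omega)) (fun k hk => h' _ (by omega))]

/-- the scaling sequence between two matrices -/
def scl {m : ℕ} (A B : Matrix (Fin (m + 2)) (Fin (m + 2)) ℝ) : ℕ → ℝ :=
  fun k => ∏ j ∈ Finset.range k,
    (ex (fun i : Fin (m + 1) => A i.castSucc i.succ) j /
      ex (fun i : Fin (m + 1) => B i.castSucc i.succ) j)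

lemma scl_zero {m : ℕ} (A B : Matrix (Fin (m + 2)) (Fin (m + 2)) ℝ) : scl A B 0 = 1 := by
  simp [scl]

lemma scl_succ {m : ℕ} (A B : Matrix (Fin (m + 2)) (Fin (m + 2)) ℝ) (i : Fin (m + 1)) :
    scl A B (i + 1) = scl A B i * (A i.castSucc i.succ / B i.castSucc i.succ) := by
  rw [scl, Finset.prod_range_succ, ex_val, ex_val, scl]

lemma scl_pos {m : ℕ} {A B : Matrix (Fin (m + 2)) (Fin (m + 2)) ℝ} (hA : InT A) (hB : InT B) :
    ∀ k, k < m + 2 → 0 < scl A B k := by
  intro k
  induction k with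
  | zero => intro _; rw [scl_zero]; exact one_pos
  | succ k ih =>
    intro hk
    have h := scl_succ A B ⟨k, by omega⟩
    simp only at h
    rw [h]
    exact mul_pos (ih (by omega)) (div_pos (hA.sup _) (hB.sup _))

lemma exists_scaling {m : ℕ} {A B : Matrix (Fin (m + 2)) (Fin (m + 2)) ℝ} (hA : InT A)
    (hB : InT B) (h1 : A 0 0 = B 0 0)
    (h2 : A (Fin.last (m + 1)) (Fin.last (m + 1)) = B (Fin.last (m + 1)) (Fin.last (m + 1)))
    (h3 : ∀ i, cc A i = cc B i) :
    ∃ d : Fin (m + 2) → ℝ, (∀ i, 0 < d i) ∧ ∀ i j, B i j = d i * A i j / d j := by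
  refine ⟨fun i => scl A B i, fun i => scl_pos hA hB i i.2, fun i j => ?_⟩
  change B i j = scl A B i * A i j / scl A B j
  have hi := scl_pos hA hB i i.2
  have hj := scl_pos hA hB j j.2
  by_cases hij : i = j
  · subst hij
    rw [mul_comm, mul_div_assoc, div_self hi.ne', mul_one]
    by_cases h0 : i = 0
    · subst h0; exact h1.symm
    · by_cases hl : i = Fin.last (m + 1)
      · subst hl; exact h2.symm
      · rw [hA.mid i h0 hl, hB.mid i h0 hl]
  · have hij' : (i : ℕ) ≠ j := fun h => hij (Fin.ext h)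
    by_cases g1 : (j : ℕ) = i + 1
    · have hi' : (i : ℕ) < m + 1 := by omega
      have e1 : i = Fin.castSucc ⟨i, hi'⟩ := Fin.ext rfl
      have e2 : j = Fin.succ ⟨i, hi'⟩ := Fin.ext g1
      have e3 : scl A B (j : ℕ) = scl A B i * (A i j / B i j) := by
        have h := scl_succ A B ⟨i, hi'⟩
        rw [← e1, ← e2] at h
        rw [g1]; exact h
      have hAp : 0 < A i j := by rw [e1, e2]; exact hA.sup _
      have hBp : 0 < B i j := by rw [e1, e2]; exact hB.sup _
      rw [e3]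
      field_simp
    · by_cases g2 : (i : ℕ) = j + 1
      · have hj' : (j : ℕ) < m + 1 := by omega
        have e1 : j = Fin.castSucc ⟨j, hj'⟩ := Fin.ext rfl
        have e2 : i = Fin.succ ⟨j, hj'⟩ := Fin.ext g2
        have e3 : scl A B (i : ℕ) = scl A B j * (A j i / B j i) := by
          have h := scl_succ A B ⟨j, hj'⟩
          rw [← e1, ← e2] at h
          rw [g2]; exact h
        have hAp : 0 < A j i := by rw [e1, e2]; exact hA.sup _
        have hBp : 0 < B j i := by rw [e1, e2]; exact hB.sup _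
        have h4 := h3 ⟨j, hj'⟩
        rw [cc, cc, ← e1, ← e2] at h4
        rw [e3]
        field_simp
        linarith
      · rw [hA.band i j (by omega), hB.band i j (by omega)]; simp

lemma scaling_data {m : ℕ} {A B : Matrix (Fin (m + 2)) (Fin (m + 2)) ℝ} (hA : InT A)
    {d : Fin (m + 2) → ℝ} (hd : ∀ i, 0 < d i) (h : ∀ i j, B i j = d i * A i j / d j) :
    InT B ∧ A 0 0 = B 0 0 ∧
      A (Fin.last (m + 1)) (Fin.last (m + 1)) = B (Fin.last (m + 1)) (Fin.last (m + 1)) ∧
      ∀ i, cc A i = cc B i := by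
  have hdiag : ∀ i, B i i = A i i := by
    intro i
    rw [h i i, mul_comm, mul_div_assoc, div_self (hd i).ne', mul_one]
  refine ⟨⟨?_, ?_, ?_, ?_, ?_, ?_⟩, (hdiag _).symm, (hdiag _).symm, ?_⟩
  · intro i j hij
    rw [h, hA.band i j hij]; simp
  · intro i
    rw [h]
    exact div_pos (mul_pos (hd _) (hA.sup i)) (hd _)
  · intro i
    rw [h]
    exact div_neg_of_neg_of_pos (mul_neg_of_pos_of_neg (hd _) (hA.sub i)) (hd _)
  · rw [hdiag]; exact hA.first
  · rw [hdiag]; exact hA.last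
  · intro i h0 hl
    rw [hdiag]; exact hA.mid i h0 hl
  · intro i
    rw [cc, cc, h i.castSucc i.succ, h i.succ i.castSucc]
    have h1 := (hd i.castSucc).ne'
    have h2 := (hd i.succ).ne'
    field_simp

lemma cc_pos {m : ℕ} {A : Matrix (Fin (m + 2)) (Fin (m + 2)) ℝ} (hA : InT A) :
    ∀ k < m + 1, 0 < ex (cc A) k := by
  intro k hk
  rw [ex_lt _ hk, cc]
  exact mul_pos (hA.sup _) (neg_pos.mpr (hA.sub _))

/-- all realisations with the given polynomial and product -/
theorem core (m : ℕ) {a b : ℝ} {v c : ℕ → ℝ} (ha : 0 < a) (hb : 0 < b)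
    (hc : ∀ k < m + 1, 0 < c k) :
    InT (nf m a b c) ∧ weight (nf m a b c) = a * b * ∏ k ∈ Finset.range (m + 1), c k ∧
      (cx (nf m a b c) (fun i : Fin (m + 2) => v (i : ℕ))).charpoly = F a b (m + 1) v c ∧
      ∀ (B : Matrix (Fin (m + 2)) (Fin (m + 2)) ℝ) (w : Fin (m + 2) → ℝ),
        (InT B ∧ weight B = a * b * ∏ k ∈ Finset.range (m + 1), c k ∧
          (cx B w).charpoly = F a b (m + 1) v c) ↔
          (w = (fun i : Fin (m + 2) => v (i : ℕ)) ∧ ∃ d : Fin (m + 2) → ℝ, (∀ i, 0 < d i) ∧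
            ∀ i j, B i j = d i * nf m a b c i j / d j) := by
  have hT := nf_inT (m := m) ha hb hc
  set A := nf m a b c with hAdef
  have hcc : ∀ k < m + 1, ex (cc A) k = c k := by
    intro k hk
    rw [ex_lt _ hk, hAdef, nf_cc]
  have hw : weight A = a * b * ∏ k ∈ Finset.range (m + 1), c k := by
    rw [← weight_eq, hAdef, nf_first, nf_last, neg_neg]
    congr 1
    refine Finset.prod_congr rfl fun k hk => ?_
    rw [← hAdef]; exact hcc k (Finset.mem_range.mp hk)
  have hch : (cx A (fun i : Fin (m + 2) => v (i : ℕ))).charpoly = F a b (m + 1) v c := by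
    rw [charpoly_cx hT, hAdef, nf_first, nf_last, neg_neg]
    refine F_congr a b (m + 1) _ _ _ _ (fun k hk => ?_) (fun k hk => ?_)
    · rw [ex_lt _ hk]
    · rw [← hAdef]; exact hcc k hk
  refine ⟨hT, hw, hch, fun B w => ⟨fun h => ?_, fun h => ?_⟩⟩
  · obtain ⟨hB, hwB, hchB⟩ := h
    have h1 : F (A 0 0) (-A (Fin.last (m + 1)) (Fin.last (m + 1))) (m + 1)
          (ex (fun i : Fin (m + 2) => v i)) (ex (cc A))
        = F (B 0 0) (-B (Fin.last (m + 1)) (Fin.last (m + 1))) (m + 1) (ex w) (ex (cc B)) := by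
      rw [← charpoly_cx hT, ← charpoly_cx hB, hch, hchB]
    obtain ⟨g1, g2, g3, g4⟩ := F_unique hT.first (neg_pos.mpr hT.last) (cc_pos hT) hB.first
      (neg_pos.mpr hB.last) (cc_pos hB) h1 (by rw [weight_eq, weight_eq, hw, hwB])
    refine ⟨?_, exists_scaling hT hB g1 (neg_injective g2) ?_⟩
    · funext i
      have h2 := g3 i i.2
      rw [ex_val, ex_val] at h2
      exact h2.symm
    · intro i
      have h2 := g4 i i.2
      rwa [ex_val, ex_val] at h2
  · obtain ⟨rfl, d, hd, hB⟩ := h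
    obtain ⟨g1, g2, g3, g4⟩ := scaling_data hT hd hB
    have g5 : cc A = cc B := funext g4
    refine ⟨g1, ?_, ?_⟩
    · rw [← hw, ← weight_eq, ← weight_eq, g2, g3, g5]
    · rw [← hch, charpoly_cx g1, charpoly_cx hT, g2, g3, g5]

/-- the complex form of the main theorem -/
theorem complex_main (m : ℕ) (P : ℂ[X]) (hP : P.Monic) (hd : P.natDegree = m + 2) (κ : ℝ)
    (hκ : 0 < κ) :
    ∃ (A : Matrix (Fin (m + 2)) (Fin (m + 2)) ℝ) (v : Fin (m + 2) → ℝ),
      InT A ∧ weight A = κ ∧ (cx A v).charpoly = P ∧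
      ∀ (B : Matrix (Fin (m + 2)) (Fin (m + 2)) ℝ) (w : Fin (m + 2) → ℝ),
        (InT B ∧ weight B = κ ∧ (cx B w).charpoly = P) ↔
          (w = v ∧ ∃ d : Fin (m + 2) → ℝ, (∀ i, 0 < d i) ∧ ∀ i j, B i j = d i * A i j / d j) := by
  obtain ⟨a, b, v, c, ha, hb, hc, hF, hprod⟩ := F_exists (m + 1) P hP hd κ hκ
  have h := core m (v := v) ha hb hc
  rw [hF, hprod] at h
  exact ⟨nf m a b c, fun i : Fin (m + 2) => v i, h⟩

/-- complex conjugation -/
lemma E_conj (b : ℝ) : ∀ (n : ℕ) (v c : ℕ → ℝ),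
    (E b n v c).map (starRingEnd ℂ) = E b n (fun k => -v k) c := by
  intro n
  induction n using Nat.twoStepInduction with
  | zero => intro v c; rw [E_zero, E_zero]; simp
  | one => intro v c; rw [E_one, E_one]; simp
  | more n ih1 ih2 =>
    intro v c
    rw [E_two, E_two, Polynomial.map_add, Polynomial.map_mul, Polynomial.map_mul, ih1, ih2]
    simp

lemma F_conj (a b : ℝ) (n : ℕ) (v c : ℕ → ℝ) :
    (F a b n v c).map (starRingEnd ℂ) = F a b n (fun k => -v k) c := by
  unfold F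
  rw [Polynomial.map_sub, Polynomial.map_mul, E_conj, E_conj]
  simp

lemma cx_zero {m : ℕ} (A : Matrix (Fin (m + 2)) (Fin (m + 2)) ℝ) :
    (cx A (fun _ => 0)).charpoly = A.charpoly.map (algebraMap ℝ ℂ) := by
  rw [← Matrix.charpoly_map]
  congr 1
  ext1 i j
  rw [cx, Matrix.map_apply]
  simp

/-- the real form of the main theorem -/
theorem real_main (m : ℕ) (p : ℝ[X]) (hp : p.Monic) (hd : p.natDegree = m + 2) (κ : ℝ)
    (hκ : 0 < κ) :
    ∃ A : Matrix (Fin (m + 2)) (Fin (m + 2)) ℝ, InT A ∧ weight A = κ ∧ A.charpoly = p ∧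
      ∀ B : Matrix (Fin (m + 2)) (Fin (m + 2)) ℝ,
        (InT B ∧ weight B = κ ∧ B.charpoly = p) ↔
          ∃ d : Fin (m + 2) → ℝ, (∀ i, 0 < d i) ∧ ∀ i j, B i j = d i * A i j / d j := by
  obtain ⟨A, v, hT, hw, hch, hall⟩ := complex_main m (p.map (algebraMap ℝ ℂ)) (hp.map _)
    (by rw [hp.natDegree_map, hd]) κ hκ
  have hv : v = fun _ => 0 := by
    have h1 : (cx A (fun i => -v i)).charpoly = p.map (algebraMap ℝ ℂ) := by
      have h2 : (cx A (fun i => -v i)).charpoly = ((cx A v).charpoly).map (starRingEnd ℂ) := by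
        rw [charpoly_cx hT, charpoly_cx hT, F_conj]
        refine F_congr _ _ (m + 1) _ _ _ _ (fun k hk => ?_) (fun k hk => rfl)
        rw [ex_lt _ hk, ex_lt _ hk]
      rw [h2, hch, Polynomial.map_map]
      congr 1
      ext x
      simp
    have h3 := ((hall A (fun i => -v i)).mp ⟨hT, hw, h1⟩).1
    funext i
    have h4 : -v i = v i := congrFun h3 i
    linarith
  subst hv
  have hinj : Function.Injective (Polynomial.map (algebraMap ℝ ℂ)) :=
    Polynomial.map_injective _ (algebraMap ℝ ℂ).injective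
  refine ⟨A, hT, hw, hinj (by rw [← cx_zero, hch]), fun B => ?_⟩
  have h := hall B (fun _ => 0)
  rw [cx_zero] at h
  constructor
  · rintro ⟨h1, h2, h3⟩
    exact (h.mp ⟨h1, h2, by rw [h3]⟩).2
  · intro h1
    obtain ⟨h2, h3, h4⟩ := h.mpr ⟨rfl, h1⟩
    exact ⟨h2, h3, hinj h4⟩

end Pool.Agent.JacT
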