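import Pool.Agent.JacT.Corner

/-!
The first diagonal entry takes exactly the values above the sum of the positive real parts of the
roots.
-/

open Polynomial Complex

noncomputable section

namespace Pool.Agent.JacT

/-- the root moved to the left half plane, by `ε` to the left of its reflection -/
def refl (ε : ℝ) (r : ℂ) : ℂ := ⟨-|r.re| - ε, r.im⟩

/-- the polynomial with the moved roots -/
def U (ε : ℝ) (s : Multiset ℂ) : ℂ[X] := ((s.map (refl ε)).map (fun a => X - C a)).prod

lemma U_monic (ε : ℝ) (s : Multiset ℂ) : (U ε s).Monic := monic_multisetProd_X_sub_C _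

lemma U_natDegree (ε : ℝ) (s : Multiset ℂ) : (U ε s).natDegree = Multiset.card s := by
  rw [U, natDegree_multiset_prod_X_sub_C_eq_card, Multiset.card_map]

lemma prod_eval (s : Multiset ℂ) (z : ℂ) :
    ‖((s.map (fun a => X - C a)).prod).eval z‖ ^ 2 = (s.map (fun r => ‖z - r‖ ^ 2)).prod := by
  induction s using Multiset.induction_on with
  | empty => simp
  | cons a s ih =>
    rw [Multiset.map_cons, Multiset.prod_cons, Multiset.map_cons, Multiset.prod_cons, eval_mul,
      norm_mul, mul_pow, ih]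
    simp

lemma U_eval (ε : ℝ) (s : Multiset ℂ) (z : ℂ) :
    ‖(U ε s).eval z‖ ^ 2 = (s.map (fun r => ‖z - refl ε r‖ ^ 2)).prod := by
  rw [U, prod_eval, Multiset.map_map]; rfl

lemma norm_axis (y : ℝ) (r : ℂ) : ‖(y : ℂ) * I - r‖ ^ 2 = r.re ^ 2 + (y - r.im) ^ 2 := by
  rw [← Complex.normSq_eq_norm_sq, Complex.normSq_apply]
  simp
  ring

lemma norm_axis_refl (ε y : ℝ) (r : ℂ) :
    ‖(y : ℂ) * I - refl ε r‖ ^ 2 = (|r.re| + ε) ^ 2 + (y - r.im) ^ 2 := by
  rw [norm_axis]
  simp only [refl]
  ring

lemma U_zero_axis (s : Multiset ℂ) (y : ℝ) :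
    ‖(U 0 s).eval (y * I)‖ ^ 2 = ‖((s.map (fun a => X - C a)).prod).eval (y * I)‖ ^ 2 := by
  rw [U_eval, prod_eval]
  congr 1
  refine Multiset.map_congr rfl fun r _ => ?_
  rw [norm_axis_refl, norm_axis, add_zero, sq_abs]

lemma U_pos_axis {ε : ℝ} (hε : 0 ≤ ε) (s : Multiset ℂ) (y : ℝ) :
    ‖((s.map (fun a => X - C a)).prod).eval (y * I)‖ ^ 2 + (ε ^ 2) ^ (Multiset.card s)
      ≤ ‖(U ε s).eval (y * I)‖ ^ 2 + (if s = 0 then 1 else 0) := by
  rw [U_eval, prod_eval]
  induction s using Multiset.induction_on with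
  | empty => simp
  | cons a s ih =>
    have h0 : 0 ≤ (s.map (fun r => ‖(y : ℂ) * I - r‖ ^ 2)).prod :=
      Multiset.prod_nonneg fun x hx => by
        obtain ⟨r, _, rfl⟩ := Multiset.mem_map.mp hx
        positivity
    have ha : ‖(y : ℂ) * I - a‖ ^ 2 + ε ^ 2 ≤ ‖(y : ℂ) * I - refl ε a‖ ^ 2 := by
      rw [norm_axis, norm_axis_refl]
      have h1 : 0 ≤ |a.re| := abs_nonneg _
      have h2 : |a.re| ^ 2 = a.re ^ 2 := sq_abs _
      nlinarith [mul_nonneg h1 hε]
    rw [Multiset.map_cons, Multiset.prod_cons, Multiset.map_cons, Multiset.prod_cons,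
      Multiset.card_cons, pow_succ (ε ^ 2), if_neg (Multiset.cons_ne_zero), add_zero]
    have hA : 0 ≤ ‖(y : ℂ) * I - a‖ ^ 2 := by positivity
    have hE : 0 ≤ (ε ^ 2) ^ (Multiset.card s) := by positivity
    by_cases hs : s = 0
    · subst hs
      simp only [Multiset.map_zero, Multiset.prod_zero, Multiset.card_zero, pow_zero, mul_one,
        one_mul]
      exact ha
    · rw [if_neg hs, add_zero] at ih
      have hE2 : 0 ≤ ε ^ 2 := by positivity
      calc ‖(y : ℂ) * I - a‖ ^ 2 * (s.map (fun r => ‖(y : ℂ) * I - r‖ ^ 2)).prod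
            + (ε ^ 2) ^ (Multiset.card s) * ε ^ 2
          ≤ (‖(y : ℂ) * I - a‖ ^ 2 + ε ^ 2) *
            ((s.map (fun r => ‖(y : ℂ) * I - r‖ ^ 2)).prod + (ε ^ 2) ^ (Multiset.card s)) := by
            nlinarith [mul_nonneg hA hE, mul_nonneg hE2 h0]
        _ ≤ _ := mul_le_mul ha ih (by positivity) (by positivity)

lemma U_hurwitz {ε : ℝ} (hε : 0 < ε) (s : Multiset ℂ) : Hurwitz (U ε s) := by
  refine ⟨(U_monic ε s).ne_zero, fun z hz => ?_⟩
  have h1 : z ∈ ((s.map (refl ε)).map (fun a => X - C a)).prod.roots := by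
    rw [mem_roots (monic_multisetProd_X_sub_C _).ne_zero]; exact hz
  rw [roots_multiset_prod_X_sub_C, Multiset.mem_map] at h1
  obtain ⟨r, _, rfl⟩ := h1
  simp only [refl]
  have := abs_nonneg r.re
  linarith

lemma U_coeff {ε : ℝ} {s : Multiset ℂ} {n : ℕ} (hs : Multiset.card s = n + 1) :
    (U ε s).coeff n = -(s.map (refl ε)).sum := by
  have h := multiset_prod_X_sub_C_coeff_card_pred (s.map (refl ε)) (by
    rw [Multiset.card_map]; omega)
  rw [Multiset.card_map, hs] at h
  exact h

/-- sum of the positive real parts -/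
def sp (s : Multiset ℂ) : ℝ := (s.map (fun r => max r.re 0)).sum

lemma sum_refl (ε : ℝ) (s : Multiset ℂ) :
    ((s.map (refl ε)).sum).re = (s.sum).re - 2 * sp s - ε * (Multiset.card s : ℝ) := by
  unfold sp
  induction s using Multiset.induction_on with
  | empty => simp
  | cons a s ih =>
    rw [Multiset.map_cons, Multiset.sum_cons, Multiset.sum_cons, Multiset.map_cons,
      Multiset.sum_cons, Complex.add_re, Complex.add_re, ih, Multiset.card_cons]
    have h1 : (refl ε a).re = a.re - 2 * max a.re 0 - ε := by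
      simp only [refl]
      rcases le_total a.re 0 with h | h
      · rw [abs_of_nonpos h, max_eq_right h]; ring
      · rw [abs_of_nonneg h, max_eq_left h]; ring
    rw [h1]
    push_cast
    ring

lemma prod_roots {P : ℂ[X]} (hP : P.Monic) : ((P.roots).map (fun a => X - C a)).prod = P :=
  ((IsAlgClosed.splits P).eq_prod_roots_of_monic hP).symm

lemma coeff_roots {P : ℂ[X]} (hP : P.Monic) {n : ℕ} (hd : P.natDegree = n + 1) :
    P.coeff n = -(P.roots).sum := by
  have hc : Multiset.card P.roots = n + 1 := by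
    rw [← hd]; exact (IsAlgClosed.splits P).natDegree_eq_card_roots.symm
  have h := multiset_prod_X_sub_C_coeff_card_pred P.roots (by omega)
  rw [hc, prod_roots hP] at h
  exact h

lemma card_roots' {P : ℂ[X]} {n : ℕ} (hd : P.natDegree = n + 1) :
    Multiset.card P.roots = n + 1 := by
  rw [← hd]; exact (IsAlgClosed.splits P).natDegree_eq_card_roots.symm

/-- the first entry exceeds the sum of the positive real parts of the roots -/
theorem corner_lower {n : ℕ} {a b : ℝ} {v c : ℕ → ℝ} (ha : 0 < a) (hb : 0 < b)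
    (hc : ∀ k < n, 0 < c k) {P : ℂ[X]} (hP : F a b n v c = P) : sp P.roots < a := by
  have hPm : P.Monic := hP ▸ (F_monic a b n v c).1
  have hPd : P.natDegree = n + 1 := hP ▸ (F_monic a b n v c).2
  have hcard := card_roots' hPd
  have hprod : 0 < a * b * ∏ k ∈ Finset.range n, c k :=
    mul_pos (mul_pos ha hb) (Finset.prod_pos fun k hk => hc k (Finset.mem_range.mp hk))
  have hform := G_form a b n v c
  rw [hP] at hform
  obtain ⟨w, hw, h1⟩ := cmp (G_hurwitz ha hb n v c hc) (G_monic a b n v c).1 (U_monic 0 P.roots)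
    (G_monic a b n v c).2 (by rw [U_natDegree, hcard]) (fun y => by
      refine norm_lt_of_form hform (U_zero_axis P.roots y) ?_
      rw [prod_roots hPm]
      linarith)
  rw [G_coeff_one, hP, U_coeff hcard, coeff_roots hPm hPd] at h1
  have h2 := congrArg Complex.re h1
  have h3 := sum_refl 0 P.roots
  simp only [Complex.sub_re, Complex.add_re, Complex.neg_re, Complex.mul_re, Complex.ofReal_re,
    Complex.ofReal_im, h3] at h2
  norm_num at h2
  linarith

/-- for small products the first entry is close to that sum -/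
theorem corner_small {n : ℕ} {a b : ℝ} {v c : ℕ → ℝ} {P : ℂ[X]} (hP : F a b n v c = P) {ε : ℝ} (hε : 0 < ε)
    (hk : 4 * (a * b * ∏ k ∈ Finset.range n, c k) < (ε ^ 2) ^ (n + 1)) :
    a < sp P.roots + ε * (n + 1) := by
  have hPm : P.Monic := hP ▸ (F_monic a b n v c).1
  have hPd : P.natDegree = n + 1 := hP ▸ (F_monic a b n v c).2
  have hcard := card_roots' hPd
  have hs0 : P.roots ≠ 0 := by
    intro h0; rw [h0] at hcard; simp at hcard
  have hform := G_form a b n v c
  rw [hP] at hform
  obtain ⟨w, hw, h1⟩ := cmp (U_hurwitz hε P.roots) (U_monic ε P.roots) (G_monic a b n v c).1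
    (by rw [U_natDegree, hcard]) (G_monic a b n v c).2 (fun y => by
      have h1 := congrArg (fun P => (P.eval (y * I)).re) hform
      rw [form_axis, mul_sh_axis, Complex.ofReal_re, Complex.ofReal_re,
        Complex.normSq_eq_norm_sq, Complex.normSq_eq_norm_sq] at h1
      have h2 := U_pos_axis hε.le P.roots y
      rw [prod_roots hPm, if_neg hs0, add_zero, hcard] at h2
      refine lt_of_pow_lt_pow_left₀ 2 (norm_nonneg _) ?_
      rw [h1]
      linarith)
  rw [G_coeff_one, hP, U_coeff hcard, coeff_roots hPm hPd] at h1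
  have h2 := congrArg Complex.re h1
  have h3 := sum_refl ε P.roots
  rw [hcard] at h3
  simp only [Complex.sub_re, Complex.add_re, Complex.neg_re, Complex.mul_re, Complex.ofReal_re,
    Complex.ofReal_im, h3] at h2
  norm_num at h2
  have h4 : 0 < ε * ((n : ℝ) + 1) := by positivity
  linarith

/-- the first entry is a strictly increasing function of the product -/
theorem corner_mono {n : ℕ} {a b a' b' : ℝ} {v v' c c' : ℕ → ℝ}
    (ha' : 0 < a') (hb' : 0 < b') (hc' : ∀ k < n, 0 < c' k)
    (h : F a b n v c = F a' b' n v' c')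
    (hk : a * b * ∏ k ∈ Finset.range n, c k < a' * b' * ∏ k ∈ Finset.range n, c' k) :
    a < a' := by
  have hform := G_form a b n v c
  have hform' := G_form a' b' n v' c'
  rw [← h] at hform'
  obtain ⟨w, hw, h1⟩ := cmp (G_hurwitz ha' hb' n v' c' hc') (G_monic a' b' n v' c').1
    (G_monic a b n v c).1 (G_monic a' b' n v' c').2 (G_monic a b n v c).2 (fun y => by
      have h1 := congrArg (fun P => (P.eval (y * I)).re) hform
      have h2 := congrArg (fun P => (P.eval (y * I)).re) hform'
      rw [form_axis, mul_sh_axis, Complex.ofReal_re, Complex.ofReal_re,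
        Complex.normSq_eq_norm_sq, Complex.normSq_eq_norm_sq] at h1 h2
      refine lt_of_pow_lt_pow_left₀ 2 (norm_nonneg _) ?_
      rw [h1, h2]
      linarith)
  rw [G_coeff_one, G_coeff_one, h] at h1
  have h2 := congrArg Complex.re h1
  simp only [Complex.sub_re, Complex.add_re, Complex.mul_re, Complex.ofReal_re,
    Complex.ofReal_im] at h2
  norm_num at h2
  linarith

theorem corner_unique {n : ℕ} {a b a' b' : ℝ} {v v' c c' : ℕ → ℝ} (ha : 0 < a) (hb : 0 < b)
    (hc : ∀ k < n, 0 < c k) (ha' : 0 < a') (hb' : 0 < b') (hc' : ∀ k < n, 0 < c' k)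
    (h : F a b n v c = F a' b' n v' c') (haa : a = a') :
    b = b' ∧ (∀ k < n + 1, v k = v' k) ∧ ∀ k < n, c k = c' k := by
  have hk : a * b * ∏ k ∈ Finset.range n, c k = a' * b' * ∏ k ∈ Finset.range n, c' k := by
    rcases lt_trichotomy (a * b * ∏ k ∈ Finset.range n, c k)
      (a' * b' * ∏ k ∈ Finset.range n, c' k) with h1 | h1 | h1
    · exact absurd haa (corner_mono ha' hb' hc' h h1).ne
    · exact h1
    · exact absurd haa.symm (corner_mono ha hb hc h.symm h1).ne
  exact (F_unique ha hb hc ha' hb' hc' h hk).2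

end Pool.Agent.JacT
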