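import Pool.Agent.JacT.Diff
import Pool.Agent.JacT.Glob
import Pool.Agent.JacT.Main

/-!
The parametrisation is analytic with injective derivatives.
-/

open Polynomial Complex
open scoped ContDiff

noncomputable section

namespace Pool.Agent.JacT

variable {X : Type*} [NormedAddCommGroup X] [NormedSpace ℝ X]

lemma ofReal_smooth {f : X → ℝ} (h : ContDiff ℝ ω f) : ContDiff ℝ ω (fun x => (f x : ℂ)) :=
  Complex.ofRealCLM.contDiff.comp h

lemma E_smooth : ∀ (n : ℕ) (b : X → ℝ) (v c : X → ℕ → ℝ), ContDiff ℝ ω b →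
    (∀ k, ContDiff ℝ ω fun x => v x k) → (∀ k, ContDiff ℝ ω fun x => c x k) →
    ∀ i, ContDiff ℝ ω fun x => (E (b x) n (v x) (c x)).coeff i := by
  intro n
  induction n using Nat.twoStepInduction with
  | zero =>
    intro b v c _ _ _ i
    simp only [E_zero]
    exact contDiff_const
  | one =>
    intro b v c hb hv _ i
    simp only [E_one, coeff_add, coeff_sub, coeff_C]
    refine (contDiff_const.sub ?_).add ?_
    · split_ifs
      · exact contDiff_const.mul (ofReal_smooth (hv 0))
      · exact contDiff_const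
    · split_ifs
      · exact ofReal_smooth hb
      · exact contDiff_const
  | more n ih1 ih2 =>
    intro b v c hb hv hc i
    have h1 := ih1 b (fun x k => v x (k + 2)) (fun x k => c x (k + 2)) hb (fun k => hv _)
      (fun k => hc _)
    have h2 := ih2 b (fun x k => v x (k + 1)) (fun x k => c x (k + 1)) hb (fun k => hv _)
      (fun k => hc _)
    simp only [E_two, coeff_add, coeff_C_mul, sub_mul, coeff_sub]
    refine (ContDiff.sub ?_ ((contDiff_const.mul (ofReal_smooth (hv 0))).mul (h2 i))).add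
      ((ofReal_smooth (hc 0)).mul (h1 i))
    rcases i with _ | i
    · simp only [coeff_zero_eq_eval_zero, eval_mul, eval_X, zero_mul]
      exact contDiff_const
    · simp only [coeff_X_mul]
      exact h2 i

lemma F_smooth (n : ℕ) (a b : X → ℝ) (v c : X → ℕ → ℝ) (ha : ContDiff ℝ ω a)
    (hb : ContDiff ℝ ω b)
    (hv : ∀ k, ContDiff ℝ ω fun x => v x k) (hc : ∀ k, ContDiff ℝ ω fun x => c x k) (i : ℕ) :
    ContDiff ℝ ω fun x => (F (a x) (b x) n (v x) (c x)).coeff i := by
  unfold F
  simp only [coeff_sub, coeff_C_mul]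
  exact (E_smooth (n + 1) b v c hb hv hc i).sub ((ofReal_smooth ha).mul
    (E_smooth n b (fun x k => v x (k + 1)) (fun x k => c x (k + 1)) hb (fun k => hv _)
      (fun k => hc _) i))

/-- the space of parameters `(a, b, c, v)` -/
abbrev Par (m : ℕ) : Type := ℝ × ℝ × (Fin (m + 1) → ℝ) × (Fin (m + 2) → ℝ)

/-- the space of coefficients and products -/
abbrev Coe (m : ℕ) : Type := (Fin (m + 2) → ℂ) × ℝ

/-- coefficients of the characteristic polynomial, and the product -/
def Phi (m : ℕ) (x : Par m) : Coe m :=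
  (fun i => (F x.1 x.2.1 (m + 1) (ex x.2.2.2) (ex x.2.2.1)).coeff i,
    x.1 * x.2.1 * ∏ i, x.2.2.1 i)

lemma ex_smooth {k : ℕ} {f : X → Fin k → ℝ} (hf : ContDiff ℝ ω f) (i : ℕ) :
    ContDiff ℝ ω (fun x => ex (f x) i) := by
  by_cases h : i < k
  · simp only [ex_lt _ h]
    exact (contDiff_apply ℝ ℝ (⟨i, h⟩ : Fin k)).comp hf
  · simp only [ex, dif_neg h]
    exact contDiff_const

lemma Phi_smooth (m : ℕ) : ContDiff ℝ ω (Phi m) := by
  have ha : ContDiff ℝ ω (fun x : Par m => x.1) := contDiff_fst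
  have hb : ContDiff ℝ ω (fun x : Par m => x.2.1) := contDiff_snd.fst
  have hc : ContDiff ℝ ω (fun x : Par m => x.2.2.1) := contDiff_snd.snd.fst
  have hv : ContDiff ℝ ω (fun x : Par m => x.2.2.2) := contDiff_snd.snd.snd
  refine ContDiff.prodMk ?_ ?_
  · refine contDiff_pi.mpr fun i => ?_
    exact F_smooth (m + 1) _ _ _ _ ha hb (fun k => ex_smooth hv k) (fun k => ex_smooth hc k) i
  · refine (ha.mul hb).mul ?_
    exact contDiff_prod fun i _ => (contDiff_apply ℝ ℝ i).comp hc

/-- the open set of admissible parameters -/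
def Om (m : ℕ) : Set (Par m) := {x | 0 < x.1 ∧ 0 < x.2.1 ∧ ∀ i, 0 < x.2.2.1 i}

lemma Om_open (m : ℕ) : IsOpen (Om m) := by
  have h1 : IsOpen {x : Par m | 0 < x.1} := isOpen_lt continuous_const continuous_fst
  have h2 : IsOpen {x : Par m | 0 < x.2.1} := isOpen_lt continuous_const (by fun_prop)
  have h3 : IsOpen {x : Par m | ∀ i, 0 < x.2.2.1 i} := by
    simp only [Set.ofPred_forall]
    exact isOpen_iInter_of_finite fun i => isOpen_lt continuous_const (by fun_prop)
  exact h1.inter (h2.inter h3)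

lemma ex_line {k : ℕ} (f g : Fin k → ℝ) (t : ℝ) :
    ex (f + t • g) = fun i => ex f i + t * ex g i := by
  funext i
  by_cases h : i < k
  · rw [ex_lt _ h, ex_lt _ h, ex_lt _ h]; simp
  · simp [ex, dif_neg h]

/-- derivative of the polynomial of the chain along a line -/
lemma hd_F (a b α β : ℝ) (n : ℕ) (v c w e : ℕ → ℝ) :
    HD (fun t => F (a + t * α) (b + t * β) n (fun k => v k + t * w k) (fun k => c k + t * e k))
      (dE b β (n + 1) v c w e -
        (C (α : ℂ) * E b n (fun k => v (k + 1)) (fun k => c (k + 1))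
          + C (a : ℂ) * dE b β n (fun k => v (k + 1)) (fun k => c (k + 1)) (fun k => w (k + 1))
            (fun k => e (k + 1)))) := by
  refine ((hd_E b β (n + 1) v c w e).sub ((hd_line a α).mul (hd_E b β n (fun k => v (k + 1))
    (fun k => c (k + 1)) (fun k => w (k + 1)) (fun k => e (k + 1))))).congr (fun t => rfl) ?_
  simp

lemma hd_G (a b α β : ℝ) (n : ℕ) (v c w e : ℕ → ℝ) :
    HD (fun t => G (a + t * α) (b + t * β) n (fun k => v k + t * w k) (fun k => c k + t * e k))
      (dE b β (n + 1) v c w e +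
        (C (α : ℂ) * E b n (fun k => v (k + 1)) (fun k => c (k + 1))
          + C (a : ℂ) * dE b β n (fun k => v (k + 1)) (fun k => c (k + 1)) (fun k => w (k + 1))
            (fun k => e (k + 1)))) := by
  refine ((hd_E b β (n + 1) v c w e).add ((hd_line a α).mul (hd_E b β n (fun k => v (k + 1))
    (fun k => c (k + 1)) (fun k => w (k + 1)) (fun k => e (k + 1))))).congr (fun t => rfl) ?_
  simp

theorem infinitesimal {n : ℕ} {a b α β : ℝ} {v c w e : ℕ → ℝ} (ha : 0 < a) (hb : 0 < b)
    (hc : ∀ k < n, 0 < c k)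
    (hF : HD (fun t => F (a + t * α) (b + t * β) n (fun k => v k + t * w k)
      (fun k => c k + t * e k)) 0)
    (hκ : HasDerivAt (fun t : ℝ => (a + t * α) * (b + t * β) *
      ∏ k ∈ Finset.range n, (c k + t * e k)) 0 0) :
    α = 0 ∧ β = 0 ∧ (∀ k < n + 1, w k = 0) ∧ ∀ k < n, e k = 0 := by
  have hF' := (hd_F a b α β n v c w e).unique hF
  have hG := hd_G a b α β n v c w e
  set Z := C (α : ℂ) * E b n (fun k => v (k + 1)) (fun k => c (k + 1))
          + C (a : ℂ) * dE b β n (fun k => v (k + 1)) (fun k => c (k + 1)) (fun k => w (k + 1))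
            (fun k => e (k + 1)) with hZ
  have hGH := G_hurwitz ha hb n v c hc
  have hz : G (a + 0 * α) (b + 0 * β) n (fun k => v k + 0 * w k) (fun k => c k + 0 * e k)
      = G a b n v c := by simp
  have hz' : F (a + 0 * α) (b + 0 * β) n (fun k => v k + 0 * w k) (fun k => c k + 0 * e k)
      = F a b n v c := by simp
  have hGG := (hG.mul hG.sh)
  have hFF := (hF.mul hF.sh)
  simp only [hz] at hGG
  simp only [hz'] at hFF
  have hconst : HD (fun t => C ((4 * ((a + t * α) * (b + t * β) *
      ∏ k ∈ Finset.range n, (c k + t * e k)) : ℝ) : ℂ)) 0 := by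
    intro z
    simp only [eval_C, eval_zero]
    have h1 := (hκ.const_mul 4).ofReal_comp
    simpa using h1
  have hsum := hFF.add hconst
  have heq := hGG.unique (hsum.congr (fun t => G_form _ _ n _ _) rfl)
  have hsh0 : sh (0 : ℂ[X]) = 0 := by simp [sh]
  rw [hsh0, zero_mul, mul_zero, add_zero, add_zero] at heq
  have hdegG : (dE b β (n + 1) v c w e + Z).degree < (G a b n v c).degree := by
    rw [degree_eq_natDegree (G_monic a b n v c).1.ne_zero, (G_monic a b n v c).2,
      degree_lt_iff_coeff_zero]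
    intro m hm
    rw [coeff_add, dE_coeff b β (n + 1) _ _ _ _ m hm, hZ, coeff_add, coeff_C_mul, coeff_C_mul,
      E_coeff_high b n _ _ (by omega), dE_coeff b β n _ _ _ _ m (by omega)]
    simp
  have hG0 := dspec_unique hGH hdegG heq
  have h2 : (2 : ℂ[X]) * dE b β (n + 1) v c w e = 0 := by linear_combination hF' + hG0
  have h3 : (2 : ℂ[X]) * Z = 0 := by linear_combination hG0 - hF'
  have h4 := (mul_eq_zero.mp h2).resolve_left two_ne_zero
  have h5 := (mul_eq_zero.mp h3).resolve_left two_ne_zero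
  have h6 : (α : ℂ) = 0 := by
    have h7 : Z.coeff n = 0 := by rw [h5, coeff_zero]
    rw [hZ, coeff_add, coeff_C_mul, coeff_C_mul, E_coeff_top,
      dE_coeff b β n _ _ _ _ n le_rfl] at h7
    simpa using h7
  have hα : α = 0 := by exact_mod_cast h6
  have hane : (C (a : ℂ) : ℂ[X]) ≠ 0 := by
    rw [Ne, C_eq_zero]
    exact_mod_cast ha.ne'
  rw [hZ, h6, C_0, zero_mul, zero_add] at h5
  have h8 := (mul_eq_zero.mp h5).resolve_left hane
  obtain ⟨e1, e2, e3⟩ := dchain_unique n b β v c w e hc h4 h8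
  exact ⟨hα, e1, e2, e3⟩

theorem Phi_deriv (m : ℕ) {x : Par m} (hx : x ∈ Om m) :
    Function.Injective (fderiv ℝ (Phi m) x) := by
  rw [injective_iff_map_eq_zero]
  intro h hh
  have hd : HasFDerivAt (Phi m) (fderiv ℝ (Phi m) x) x :=
    ((Phi_smooth m).differentiable (by simp)).differentiableAt.hasFDerivAt
  have hline : HasDerivAt (fun t : ℝ => x + t • h) h 0 := by
    have := ((hasDerivAt_id (0 : ℝ)).smul_const h).const_add x
    simpa using this
  have hcomp : HasDerivAt (fun t : ℝ => Phi m (x + t • h)) 0 0 := by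
    have h1 : HasFDerivAt (Phi m) (fderiv ℝ (Phi m) x) (x + (0 : ℝ) • h) := by
      rw [zero_smul, add_zero]; exact hd
    have := h1.comp_hasDerivAt (0 : ℝ) hline
    rw [hh] at this
    exact this
  have hcoef : ∀ i : Fin (m + 2), HasDerivAt (fun t : ℝ => (Phi m (x + t • h)).1 i) 0 0 := by
    intro i
    have h1 : HasDerivAt (fun t : ℝ => (Phi m (x + t • h)).1) 0 0 := by
      exact (ContinuousLinearMap.fst ℝ (Fin (m + 2) → ℂ) ℝ).hasFDerivAt.comp_hasDerivAt
        (0 : ℝ) hcomp
    exact hasDerivAt_pi.mp h1 i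
  have hprod : HasDerivAt (fun t : ℝ => (Phi m (x + t • h)).2) 0 0 := by
    exact (ContinuousLinearMap.snd ℝ (Fin (m + 2) → ℂ) ℝ).hasFDerivAt.comp_hasDerivAt
      (0 : ℝ) hcomp
  obtain ⟨a, b, c, v⟩ := x
  obtain ⟨α, β, e, w⟩ := h
  obtain ⟨ha, hb, hc⟩ := hx
  simp only at ha hb hc
  have hfun : ∀ t : ℝ, (a, b, c, v) + t • (α, β, e, w)
      = ((a + t * α, b + t * β, c + t • e, v + t • w) : Par m) := fun t => rfl
  have hFt : ∀ t : ℝ, F (a + t * α) (b + t * β) (m + 1) (fun k => ex v k + t * ex w k)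
      (fun k => ex c k + t * ex e k)
      = F (a + t * α) (b + t * β) (m + 1) (ex (v + t • w)) (ex (c + t • e)) := by
    intro t; rw [ex_line, ex_line]
  have hF : HD (fun t => F (a + t * α) (b + t * β) (m + 1) (fun k => ex v k + t * ex w k)
      (fun k => ex c k + t * ex e k)) 0 := by
    intro z
    have h1 : ∀ t : ℝ, (F (a + t * α) (b + t * β) (m + 1) (fun k => ex v k + t * ex w k)
      (fun k => ex c k + t * ex e k)).eval z
        = ∑ i : Fin (m + 2), (Phi m ((a, b, c, v) + t • (α, β, e, w))).1 i * z ^ (i : ℕ)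
          + z ^ (m + 2) := by
      intro t
      have hmon := F_monic (a + t * α) (b + t * β) (m + 1) (fun k => ex v k + t * ex w k)
        (fun k => ex c k + t * ex e k)
      rw [eval_eq_sum_range, hmon.2, Finset.sum_range_succ, Finset.sum_range, hfun]
      have h2 : (F (a + t * α) (b + t * β) (m + 1) (fun k => ex v k + t * ex w k)
        (fun k => ex c k + t * ex e k)).coeff (m + 1 + 1) = 1 := by
        have := hmon.1
        rwa [Monic, leadingCoeff, hmon.2] at this
      rw [h2, one_mul]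
      refine congrArg₂ (· + ·) (Finset.sum_congr rfl fun i _ => ?_) rfl
      rw [hFt]; rfl
    simp only [h1, eval_zero]
    have h3 : HasDerivAt (fun t : ℝ => ∑ i : Fin (m + 2),
        (Phi m ((a, b, c, v) + t • (α, β, e, w))).1 i * z ^ (i : ℕ)) 0 0 := by
      have h4 : HasDerivAt (fun t : ℝ => ∑ i : Fin (m + 2),
        (Phi m ((a, b, c, v) + t • (α, β, e, w))).1 i * z ^ (i : ℕ))
          (∑ i : Fin (m + 2), 0 * z ^ (i : ℕ)) 0 :=
        HasDerivAt.fun_sum fun i _ => (hcoef i).mul_const _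
      simpa using h4
    exact h3.add_const _
  have hκ : HasDerivAt (fun t : ℝ => (a + t * α) * (b + t * β) *
      ∏ k ∈ Finset.range (m + 1), (ex c k + t * ex e k)) 0 0 := by
    have h1 : ∀ t : ℝ, (a + t * α) * (b + t * β) *
      ∏ k ∈ Finset.range (m + 1), (ex c k + t * ex e k)
        = (Phi m ((a, b, c, v) + t • (α, β, e, w))).2 := by
      intro t
      rw [hfun, Finset.prod_range]
      simp only [Phi, ex_val]
      rfl
    simp only [h1]
    exact hprod
  obtain ⟨e1, e2, e3, e4⟩ := infinitesimal ha hb (fun k hk => by rw [ex_lt _ hk]; exact hc _) hF hκ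
  have e5 : w = 0 := by
    funext i
    have := e3 i i.2
    rwa [ex_val] at this
  have e6 : e = 0 := by
    funext i
    have := e4 i i.2
    rwa [ex_val] at this
  rw [e1, e2, e5, e6]
  rfl

end Pool.Agent.JacT
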