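import Pool.Agent.JacT.Basic

/-!
Spectral factorisation with respect to the imaginary axis.
-/

open Polynomial Complex

noncomputable section

namespace Pool.Agent.JacT

lemma Hurwitz.mul {P Q : ℂ[X]} (hP : Hurwitz P) (hQ : Hurwitz Q) : Hurwitz (P * Q) := by
  refine ⟨mul_ne_zero hP.1 hQ.1, fun z hz => ?_⟩
  rw [eval_mul, mul_eq_zero] at hz
  exact hz.elim (hP.2 z) (hQ.2 z)

lemma hurwitz_C {a : ℂ} (ha : a ≠ 0) : Hurwitz (C a) :=
  ⟨C_ne_zero.mpr ha, fun z hz => absurd hz (by simpa using ha)⟩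

lemma hurwitz_X_sub_C {r : ℂ} (hr : r.re < 0) : Hurwitz (X - C r) := by
  refine ⟨X_sub_C_ne_zero r, fun z hz => ?_⟩
  rw [eval_sub, eval_X, eval_C, sub_eq_zero] at hz
  rw [hz]; exact hr

lemma sh_ne_zero {P : ℂ[X]} (h : P ≠ 0) : sh P ≠ 0 := fun h0 => h (by
  rw [← sh_sh P, h0]; simp [sh])

lemma natDegree_sh (P : ℂ[X]) : (sh P).natDegree = P.natDegree := by
  unfold sh
  rw [natDegree_comp, natDegree_neg, natDegree_X, mul_one]
  exact natDegree_map_eq_of_injective (RingHom.injective _) P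

lemma leadingCoeff_sh (P : ℂ[X]) :
    (sh P).leadingCoeff = (starRingEnd ℂ) P.leadingCoeff * (-1) ^ P.natDegree := by
  unfold sh
  rw [leadingCoeff_comp (by rw [natDegree_neg, natDegree_X]; exact one_ne_zero),
    leadingCoeff_neg, leadingCoeff_X,
    natDegree_map_eq_of_injective (RingHom.injective _) P,
    leadingCoeff_map_of_injective (RingHom.injective _)]

lemma sh_X_sub_C (r : ℂ) : sh (X - C r) = -(X - C (-(starRingEnd ℂ r))) := by
  rw [sh_sub, sh_X, sh_C, map_neg]; ring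

lemma mul_sh_axis (P : ℂ[X]) (y : ℝ) :
    (P * sh P).eval (y * I) = ((Complex.normSq (P.eval (y * I)) : ℝ) : ℂ) := by
  rw [eval_mul, sh_eval_axis, Complex.mul_conj]

lemma root_refl {G : ℂ[X]} (hG : sh G = G) {r : ℂ} (h : G.eval r = 0) :
    G.eval (-(starRingEnd ℂ r)) = 0 := by
  conv_lhs => rw [← hG]
  rw [sh_eval]; simp [h]

theorem spec_exists : ∀ (n : ℕ) (G : ℂ[X]), G.natDegree ≤ n → sh G = G →
    (∀ y : ℝ, 0 < (G.eval (y * I)).re) → ∃ T : ℂ[X], Hurwitz T ∧ T * sh T = G := by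
  intro n
  induction n using Nat.strong_induction_on with
  | _ n ih =>
    intro G hdeg hG hpos
    by_cases h0 : G.natDegree = 0
    · obtain ⟨g, rfl⟩ := natDegree_eq_zero.mp h0
      have h1 : (starRingEnd ℂ) g = g := by
        rw [sh_C] at hG
        exact C_injective hG
      have h2 : 0 < g.re := by simpa using hpos 0
      have h3 : ((g.re : ℝ) : ℂ) = g := Complex.conj_eq_iff_re.mp h1
      refine ⟨C ((Real.sqrt g.re : ℝ) : ℂ), hurwitz_C ?_, ?_⟩
      · exact_mod_cast (Real.sqrt_pos.mpr h2).ne'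
      · rw [sh_C, Complex.conj_ofReal, ← C_mul, ← Complex.ofReal_mul, Real.mul_self_sqrt h2.le, h3]
    · have hGne : G ≠ 0 := fun h => h0 (by rw [h, natDegree_zero])
      obtain ⟨r0, hr0⟩ := IsAlgClosed.exists_root G (by
        intro h; exact h0 (natDegree_eq_of_degree_eq_some h))
      have hax : ∀ r : ℂ, G.eval r = 0 → r.re ≠ 0 := by
        intro r hr hre
        have h4 : r = (r.im : ℂ) * I := Complex.ext (by simp [hre]) (by simp)
        have := hpos r.im
        rw [← h4, hr] at this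
        simp at this
      obtain ⟨r, hr, hre⟩ : ∃ r : ℂ, G.eval r = 0 ∧ r.re < 0 := by
        rcases lt_or_gt_of_ne (hax r0 hr0) with h | h
        · exact ⟨r0, hr0, h⟩
        · exact ⟨_, root_refl hG hr0, by simpa using h⟩
      set r' := -(starRingEnd ℂ r) with hr'
      have hr'0 : G.eval r' = 0 := root_refl hG hr
      have hre' : 0 < r'.re := by rw [hr']; simpa using hre
      obtain ⟨H, hH⟩ := dvd_iff_isRoot.mpr hr
      have hH0 : H.eval r' = 0 := by
        rw [hH, eval_mul, eval_sub, eval_X, eval_C, mul_eq_zero] at hr'0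
        rcases hr'0 with h | h
        · rw [sub_eq_zero] at h
          rw [h] at hre'; linarith
        · exact h
      obtain ⟨K, hK⟩ := dvd_iff_isRoot.mpr hH0
      have hsh : sh (X - C r) = -(X - C r') := sh_X_sub_C r
      have hfac : G = (X - C r) * sh (X - C r) * (-K) := by
        rw [hsh, hH, hK]; ring
      have hKne : K ≠ 0 := by
        rintro rfl
        rw [mul_zero] at hK
        rw [hK, mul_zero] at hH
        exact hGne hH
      have hXr : (X - C r) ≠ 0 := X_sub_C_ne_zero r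
      have hshne := sh_ne_zero hXr
      have hK2 : sh (-K) = -K := by
        have h5 := hG
        rw [hfac, sh_mul, sh_mul, sh_sh] at h5
        have h6 : (X - C r) * sh (X - C r) ≠ 0 := mul_ne_zero hXr hshne
        refine mul_left_cancel₀ h6 ?_
        rw [← h5]; ring
      have hKpos : ∀ y : ℝ, 0 < ((-K).eval (y * I)).re := by
        intro y
        have h7 := hpos y
        rw [hfac, eval_mul, mul_sh_axis, Complex.re_ofReal_mul] at h7
        exact (pos_iff_pos_of_mul_pos h7).mp (lt_of_le_of_ne (Complex.normSq_nonneg _) (by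
          intro h8; rw [← h8, zero_mul] at h7; exact lt_irrefl _ h7))
      have hdegK : (-K).natDegree + 2 = G.natDegree := by
        rw [hH, hK, natDegree_mul (X_sub_C_ne_zero r) (mul_ne_zero (X_sub_C_ne_zero r') hKne),
          natDegree_mul (X_sub_C_ne_zero r') hKne, natDegree_X_sub_C, natDegree_X_sub_C,
          natDegree_neg]
        ring
      obtain ⟨T2, hT2, hT2'⟩ := ih (n - 1) (by omega) (-K) (by omega) hK2 hKpos
      refine ⟨(X - C r) * T2, (hurwitz_X_sub_C hre).mul hT2, ?_⟩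
      rw [sh_mul, hfac, ← hT2']; ring

lemma sh_self_form (p : ℂ[X]) (k : ℝ) : sh (p * sh p + C (k : ℂ)) = p * sh p + C (k : ℂ) := by
  rw [sh_add, sh_mul, sh_sh, sh_C, Complex.conj_ofReal]; ring

lemma form_axis (p : ℂ[X]) (k : ℝ) (y : ℝ) :
    (p * sh p + C (k : ℂ)).eval (y * I) = ((Complex.normSq (p.eval (y * I)) + k : ℝ) : ℂ) := by
  rw [eval_add, mul_sh_axis, eval_C]; push_cast; ring

theorem spec_monic {p : ℂ[X]} (hp : p.Monic) (hn : 0 < p.natDegree) {k : ℝ} (hk : 0 < k) :
    ∃ T : ℂ[X], T.Monic ∧ Hurwitz T ∧ T.natDegree = p.natDegree ∧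
      T * sh T = p * sh p + C (k : ℂ) := by
  obtain ⟨T, hT, hTT⟩ := spec_exists _ (p * sh p + C (k : ℂ)) le_rfl (sh_self_form p k) (fun y => by
    rw [form_axis, Complex.ofReal_re]
    have := Complex.normSq_nonneg (p.eval (y * I))
    linarith)
  have hp0 : p ≠ 0 := hp.ne_zero
  have hdeg1 : (p * sh p).natDegree = 2 * p.natDegree := by
    rw [natDegree_mul hp0 (sh_ne_zero hp0), natDegree_sh]; ring
  have hdegC : (C (k : ℂ)).degree < (p * sh p).degree := by
    rw [degree_eq_natDegree (mul_ne_zero hp0 (sh_ne_zero hp0)), hdeg1]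
    refine lt_of_le_of_lt degree_C_le ?_
    exact_mod_cast (by omega : 0 < 2 * p.natDegree)
  have hdeg2 : (p * sh p + C (k : ℂ)).natDegree = 2 * p.natDegree := by
    rw [natDegree_add_eq_left_of_degree_lt hdegC, hdeg1]
  have hlc2 : (p * sh p + C (k : ℂ)).leadingCoeff = (-1) ^ p.natDegree := by
    rw [leadingCoeff_add_of_degree_lt' hdegC, leadingCoeff_mul, leadingCoeff_sh, hp.leadingCoeff]
    simp
  have hdegT : T.natDegree = p.natDegree := by
    have h1 : (T * sh T).natDegree = 2 * T.natDegree := by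
      rw [natDegree_mul hT.1 (sh_ne_zero hT.1), natDegree_sh]; ring
    rw [hTT, hdeg2] at h1; omega
  have hlcT : T.leadingCoeff * (starRingEnd ℂ) T.leadingCoeff = 1 := by
    have h1 : (T * sh T).leadingCoeff
        = T.leadingCoeff * (starRingEnd ℂ) T.leadingCoeff * (-1) ^ T.natDegree := by
      rw [leadingCoeff_mul, leadingCoeff_sh]; ring
    rw [hTT, hlc2, hdegT] at h1
    have h2 : ((-1 : ℂ)) ^ p.natDegree ≠ 0 := pow_ne_zero _ (by norm_num)
    have h3 : (T.leadingCoeff * (starRingEnd ℂ) T.leadingCoeff - 1) * (-1 : ℂ) ^ p.natDegree = 0 := by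
      rw [sub_mul, ← h1]; ring
    rcases mul_eq_zero.mp h3 with h | h
    · exact sub_eq_zero.mp h
    · exact absurd h h2
  have hl0 : T.leadingCoeff ≠ 0 := leadingCoeff_ne_zero.mpr hT.1
  refine ⟨C (T.leadingCoeff⁻¹) * T, ?_, (hurwitz_C (inv_ne_zero hl0)).mul hT, ?_, ?_⟩
  · rw [Monic, leadingCoeff_mul, leadingCoeff_C]; exact inv_mul_cancel₀ hl0
  · rw [natDegree_C_mul (inv_ne_zero hl0), hdegT]
  · have hci : (starRingEnd ℂ) (T.leadingCoeff⁻¹) = ((starRingEnd ℂ) T.leadingCoeff)⁻¹ :=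
      map_inv₀ _ _
    rw [sh_mul, sh_C, hci, ← hTT]
    have h4 : C (T.leadingCoeff⁻¹) * T * (C (((starRingEnd ℂ) T.leadingCoeff)⁻¹) * sh T)
        = C (T.leadingCoeff⁻¹ * ((starRingEnd ℂ) T.leadingCoeff)⁻¹) * (T * sh T) := by
      rw [C_mul]; ring
    rw [h4, ← mul_inv, hlcT, inv_one, C_1, one_mul]

theorem spec_unique {T T' : ℂ[X]} (hm : T.Monic) (hm' : T'.Monic) (hT : Hurwitz T)
    (hT' : Hurwitz T') (h : T * sh T = T' * sh T') : T = T' := by
  have hcop : IsCoprime T (sh T') := by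
    rw [Polynomial.isCoprime_iff_aeval_ne_zero_of_isAlgClosed ℂ ℂ]
    intro a
    by_contra hcon
    push Not at hcon
    obtain ⟨h1, h2⟩ := hcon
    rw [coe_aeval_eq_eval] at h1 h2
    have h3 := hT.2 a h1
    rw [sh_eval, map_eq_zero] at h2
    have h4 := hT'.2 _ h2
    simp only [Complex.neg_re, Complex.conj_re] at h4
    linarith
  have hdvd : T ∣ T' := hcop.dvd_of_dvd_mul_right (by rw [← h]; exact dvd_mul_right _ _)
  have hdeg : T.natDegree = T'.natDegree := by
    have h1 : (T * sh T).natDegree = 2 * T.natDegree := by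
      rw [natDegree_mul hT.1 (sh_ne_zero hT.1), natDegree_sh]; ring
    have h2 : (T' * sh T').natDegree = 2 * T'.natDegree := by
      rw [natDegree_mul hT'.1 (sh_ne_zero hT'.1), natDegree_sh]; ring
    rw [h, h2] at h1; omega
  exact (eq_of_monic_of_dvd_of_natDegree_le hm hm' hdvd hdeg.ge).symm

end Pool.Agent.JacT
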